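import Pool.Agent.H900.Str.Len

set_option autoImplicit false

open Set Filter Topology Metric MeasureTheory
open scoped InnerProductSpace Pointwise ENNReal

namespace Pool.Agent.H900.Str

lemma tendsto_R_sin (τ : ℝ) : Tendsto (fun R : ℝ => R * Real.sin (τ / R)) atTop (𝓝 τ) := by
  rcases eq_or_ne τ 0 with rfl | hτ
  · simp
  · have h := Real.hasDerivAt_sin 0
    rw [hasDerivAt_iff_tendsto_slope_zero] at h
    simp only [zero_add, Real.sin_zero, sub_zero, Real.cos_zero, smul_eq_mul] at h
    have h1 : Tendsto (fun R : ℝ => τ / R) atTop (𝓝[≠] 0) := by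
      rw [tendsto_nhdsWithin_iff]
      refine ⟨tendsto_const_nhds.div_atTop tendsto_id, ?_⟩
      filter_upwards [eventually_gt_atTop 0] with R hR
      exact div_ne_zero hτ hR.ne'
    have h2 := (h.comp h1).const_mul τ
    rw [mul_one] at h2
    refine h2.congr' ?_
    filter_upwards [eventually_gt_atTop 0] with R hR
    simp only [Function.comp_apply]
    field_simp

lemma layer {g : ℝ → ℝ} {M : ℝ} (hg : Continuous g) (hM : ∀ t, |g t| ≤ M) (h0 : 0 < g 0) :
    Tendsto (fun R : ℝ => R * ∫ t in (0 : ℝ)..(Real.pi / 2), max (g t - R * Real.sin t) 0)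
      atTop (𝓝 (g 0 ^ 2 / 2)) := by
  have hπ := Real.pi_pos
  have hM0 : 0 < M := lt_of_lt_of_le h0 ((le_abs_self _).trans (hM 0))
  set A : ℝ := Real.pi * M / 2 + M with hA
  have hA0 : 0 < A := by positivity
  -- the limit integral
  have hlim : ∫ τ in (0 : ℝ)..A, max (g 0 - τ) 0 = g 0 ^ 2 / 2 := by
    have hc : Continuous fun τ : ℝ => max (g 0 - τ) 0 := by fun_prop
    rw [← intervalIntegral.integral_add_adjacent_intervals (b := g 0)
      (hc.intervalIntegrable _ _) (hc.intervalIntegrable _ _)]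
    have hgA : g 0 ≤ A := by
      have := (le_abs_self _).trans (hM 0)
      have : 0 < Real.pi * M / 2 := by positivity
      linarith
    have e1 : ∫ τ in (0 : ℝ)..(g 0), max (g 0 - τ) 0 = ∫ τ in (0 : ℝ)..(g 0), (g 0 - τ) := by
      apply intervalIntegral.integral_congr
      intro τ hτ
      rw [uIcc_of_le h0.le] at hτ
      exact max_eq_left (by linarith [hτ.2])
    have e2 : ∫ τ in (g 0)..A, max (g 0 - τ) 0 = ∫ _τ in (g 0)..A, (0 : ℝ) := by
      apply intervalIntegral.integral_congr
      intro τ hτ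
      rw [uIcc_of_le hgA] at hτ
      exact max_eq_right (by linarith [hτ.1])
    have e3 : ∫ τ in (0 : ℝ)..(g 0), (g 0 - τ) = g 0 ^ 2 / 2 := by
      rw [intervalIntegral.integral_sub (continuous_const.intervalIntegrable _ _)
        ((by fun_prop : Continuous fun τ : ℝ => τ).intervalIntegrable _ _),
        intervalIntegral.integral_const, integral_id]
      simp only [smul_eq_mul]
      ring
    rw [e1, e2, intervalIntegral.integral_zero, add_zero, e3]
  rw [← hlim]
  -- rescaled integrals
  have hdct : Tendsto (fun R : ℝ => ∫ τ in (0 : ℝ)..A, max (g (τ / R) - R * Real.sin (τ / R)) 0)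
      atTop (𝓝 (∫ τ in (0 : ℝ)..A, max (g 0 - τ) 0)) := by
    apply intervalIntegral.tendsto_integral_filter_of_dominated_convergence (fun _ => M)
    · filter_upwards [eventually_gt_atTop 0] with R hR
      apply Continuous.aestronglyMeasurable
      fun_prop
    · filter_upwards [eventually_gt_atTop (2 * A)] with R hR
      refine Eventually.of_forall fun τ hτ => ?_
      rw [uIoc_of_le hA0.le] at hτ
      rw [Real.norm_eq_abs, abs_of_nonneg (le_max_right _ _)]
      apply max_le _ hM0.le
      have hR0 : 0 < R := by linarith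
      have h1 : 0 ≤ Real.sin (τ / R) := by
        apply Real.sin_nonneg_of_nonneg_of_le_pi
        · exact div_nonneg hτ.1.le hR0.le
        · rw [div_le_iff₀ hR0]
          have := Real.pi_gt_three
          nlinarith [hτ.2]
      have h2 := (le_abs_self _).trans (hM (τ / R))
      have h3 := mul_nonneg hR0.le h1
      linarith
    · exact continuous_const.intervalIntegrable _ _
    · refine Eventually.of_forall fun τ _ => ?_
      have h1 : Tendsto (fun R : ℝ => g (τ / R)) atTop (𝓝 (g 0)) :=
        (hg.tendsto 0).comp (tendsto_const_nhds.div_atTop tendsto_id)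
      exact (h1.sub (tendsto_R_sin τ)).max tendsto_const_nhds
  refine hdct.congr' ?_
  filter_upwards [eventually_gt_atTop (2 * A)] with R hR
  have hR0 : 0 < R := by linarith
  have hc : Continuous fun t : ℝ => max (g t - R * Real.sin t) 0 := by fun_prop
  have hc' : Continuous fun t : ℝ => max (g (t / R) - R * Real.sin (t / R)) 0 := by fun_prop
  have e1 : R * ∫ t in (0 : ℝ)..(Real.pi / 2), max (g t - R * Real.sin t) 0 =
      ∫ τ in (0 : ℝ)..(R * (Real.pi / 2)), max (g (τ / R) - R * Real.sin (τ / R)) 0 := by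
    rw [intervalIntegral.integral_comp_div (fun t => max (g t - R * Real.sin t) 0) hR0.ne']
    rw [smul_eq_mul, zero_div, mul_div_cancel_left₀ _ hR0.ne']
  have hAR : A ≤ R * (Real.pi / 2) := by
    have := Real.pi_gt_three
    nlinarith
  have e0 := intervalIntegral.integral_add_adjacent_intervals
      (hc'.intervalIntegrable (μ := volume) 0 A)
      (hc'.intervalIntegrable (μ := volume) A (R * (Real.pi / 2)))
  rw [e1, ← e0]
  have e2 : ∫ τ in A..(R * (Real.pi / 2)), max (g (τ / R) - R * Real.sin (τ / R)) 0 =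
      ∫ _τ in A..(R * (Real.pi / 2)), (0 : ℝ) := by
    apply intervalIntegral.integral_congr
    intro τ hτ
    rw [uIcc_of_le hAR] at hτ
    apply max_eq_right
    have h1 : 2 / Real.pi * (τ / R) ≤ Real.sin (τ / R) := by
      apply Real.mul_le_sin
      · exact div_nonneg (by linarith [hτ.1]) hR0.le
      · rw [div_le_iff₀ hR0]; linarith [hτ.2]
    have h2 := (le_abs_self _).trans (hM (τ / R))
    have h3 : R * (2 / Real.pi * (τ / R)) = 2 * τ / Real.pi := by field_simp
    have h4 := mul_le_mul_of_nonneg_left h1 hR0.le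
    rw [h3] at h4
    have h5 : M ≤ 2 * τ / Real.pi := by
      rw [le_div_iff₀ hπ]
      have := hτ.1
      nlinarith
    linarith
  rw [e2, intervalIntegral.integral_zero, add_zero]

/-- the excess -/
noncomputable def EE (C : Set E) (φ R : ℝ) : ℝ :=
  ∫ s in (φ - Real.pi / 2)..(φ + Real.pi / 2), max (supp C s - R * Real.cos (s - φ)) 0

lemma EE_nonneg (C : Set E) (φ R : ℝ) : 0 ≤ EE C φ R := by
  unfold EE
  have := Real.pi_pos
  exact intervalIntegral.integral_nonneg (by linarith) fun s _ => le_max_right _ _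

section

variable {C : Set E} (hC : IsCompact C) {r : ℝ} (hr : 0 < r)
  (hball : closedBall (0 : E) r ⊆ C)

include hr hball in
lemma ne_of_ball : C.Nonempty := ⟨0, hball (by simp [hr.le])⟩

include hC hr hball

lemma L_ray {R : ℝ} (hR : 0 ≤ R) (φ : ℝ) : L C (R • v φ) = 2 * R + cc C φ + EE C φ R := by
  have hne := ne_of_ball hr hball
  have hπ := Real.pi_pos
  have hcont := supp_cont hC hne
  rw [L_split hC hne _ φ]
  have e1 : ∫ s in (φ + Real.pi / 2)..(φ + 3 * Real.pi / 2), max (supp C s) ⟪R • v φ, v s⟫_ℝ =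
      cc C φ := by
    unfold cc
    apply intervalIntegral.integral_congr
    intro s hs
    rw [uIcc_of_le (by linarith)] at hs
    apply max_eq_left
    rw [inner_smul_left, ivv]
    simp only [conj_trivial]
    have h1 : Real.cos (φ - s) ≤ 0 := by
      rw [← Real.cos_neg]
      apply Real.cos_nonpos_of_pi_div_two_le_of_le <;> linarith [hs.1, hs.2]
    have h2 := supp_ge hC hr hball s
    nlinarith
  have e2 : ∫ s in (φ - Real.pi / 2)..(φ + Real.pi / 2), max (supp C s) ⟪R • v φ, v s⟫_ℝ =
      2 * R + EE C φ R := by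
    unfold EE
    have h3 : 2 * R = ∫ s in (φ - Real.pi / 2)..(φ + Real.pi / 2), ⟪R • v φ, v s⟫_ℝ := by
      rw [integral_v_half, inner_smul_left, real_inner_self_eq_norm_sq, norm_v]
      simp
    have hc : Continuous fun s => max (supp C s - R * Real.cos (s - φ)) 0 := by fun_prop
    rw [h3, ← intervalIntegral.integral_add ((inner_v_cont _).intervalIntegrable _ _)
      (hc.intervalIntegrable _ _)]
    congr 1
    ext s
    rw [inner_smul_left, ivv]
    simp only [conj_trivial]
    have e : Real.cos (φ - s) = Real.cos (s - φ) := by rw [← Real.cos_neg]; congr 1; ring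
    rw [e]
    rcases le_total (supp C s) (R * Real.cos (s - φ)) with h | h
    · rw [max_eq_right h, max_eq_right (by linarith)]; ring
    · rw [max_eq_left h, max_eq_left (by linarith)]; ring
  rw [e1, e2]
  ring

lemma EE_tendsto (φ : ℝ) : Tendsto (fun R => R * EE C φ R) atTop
    (𝓝 ((supp C (φ + Real.pi / 2) ^ 2 + supp C (φ - Real.pi / 2) ^ 2) / 2)) := by
  have hne := ne_of_ball hr hball
  have hcont := supp_cont hC hne
  obtain ⟨M, hM⟩ := hC.isBounded.exists_norm_le
  have hb : ∀ φ, |supp C φ| ≤ M := by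
    intro φ
    have h1 := supp_ge hC hr hball φ
    rw [abs_of_nonneg (by linarith)]
    apply supp_le hC hne
    intro y hy
    have := real_inner_le_norm y (v φ)
    rw [norm_v, mul_one] at this
    exact this.trans (hM y hy)
  have hπ := Real.pi_pos
  have l1 := layer (g := fun t => supp C (φ + Real.pi / 2 - t)) (M := M) (by fun_prop)
    (fun t => hb _) (by simpa using lt_of_lt_of_le hr (supp_ge hC hr hball _))
  have l2 := layer (g := fun t => supp C (φ - Real.pi / 2 + t)) (M := M) (by fun_prop)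
    (fun t => hb _) (by simpa using lt_of_lt_of_le hr (supp_ge hC hr hball _))
  simp only [sub_zero, add_zero] at l1 l2
  have l3 := l2.add l1
  have e0 : supp C (φ - Real.pi / 2) ^ 2 / 2 + supp C (φ + Real.pi / 2) ^ 2 / 2 =
    (supp C (φ + Real.pi / 2) ^ 2 + supp C (φ - Real.pi / 2) ^ 2) / 2 := by ring
  rw [e0] at l3
  refine l3.congr fun R => ?_
  rw [← mul_add]
  congr 1
  unfold EE
  have hc : Continuous fun s => max (supp C s - R * Real.cos (s - φ)) 0 := by fun_prop
  rw [← intervalIntegral.integral_add_adjacent_intervals (b := φ)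
      (hc.intervalIntegrable _ _) (hc.intervalIntegrable _ _)]
  congr 1
  · have := intervalIntegral.integral_comp_add_left
      (fun s => max (supp C s - R * Real.cos (s - φ)) 0) (a := 0) (b := Real.pi / 2)
      (φ - Real.pi / 2)
    rw [add_zero, sub_add_cancel] at this
    rw [← this]
    congr 1
    ext t
    congr 3
    have e : φ - Real.pi / 2 + t - φ = t - Real.pi / 2 := by ring
    rw [e, Real.cos_sub_pi_div_two]
  · have := intervalIntegral.integral_comp_sub_left
      (fun s => max (supp C s - R * Real.cos (s - φ)) 0) (a := 0) (b := Real.pi / 2)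
      (φ + Real.pi / 2)
    rw [sub_zero, add_sub_cancel_right] at this
    rw [← this]
    congr 1
    ext t
    congr 3
    have e : φ + Real.pi / 2 - t - φ = Real.pi / 2 - t := by ring
    rw [e, Real.cos_pi_div_two_sub]

lemma EE_tendsto_zero (φ : ℝ) : Tendsto (fun R => EE C φ R) atTop (𝓝 0) := by
  have h1 := (EE_tendsto hC hr hball φ).mul tendsto_inv_atTop_zero
  rw [mul_zero] at h1
  refine h1.congr' ?_
  filter_upwards [eventually_gt_atTop 0] with R hR
  field_simp

lemma ray_surj (φ : ℝ) {t : ℝ} (ht : len C ≤ t) :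
    ∃ R : ℝ, 0 ≤ R ∧ L C (R • v φ) = t := by
  have hne := ne_of_ball hr hball
  have hcont : Continuous fun R : ℝ => L C (R • v φ) := (L_cont hC hne).comp (by fun_prop)
  have h0 : L C ((0 : ℝ) • v φ) = len C := by
    rw [zero_smul]
    exact L_of_mem hC hne (hball (by simp [hr.le]))
  set B : ℝ := max 0 ((t - cc C φ) / 2) with hB
  have hB0 : 0 ≤ B := le_max_left _ _
  have h1 : t ≤ L C (B • v φ) := by
    rw [L_ray hC hr hball hB0]
    have h2 := EE_nonneg C φ B
    have h3 : (t - cc C φ) / 2 ≤ B := le_max_right _ _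
    linarith
  have h2 := intermediate_value_Icc hB0 hcont.continuousOn
  obtain ⟨R, hR, hR2⟩ := h2 (show t ∈ Icc (L C ((0 : ℝ) • v φ)) (L C (B • v φ)) by
    rw [h0]; exact ⟨ht, h1⟩)
  exact ⟨R, hR.1, hR2⟩

end

/-- Comparison at infinity of two bodies whose string constructions have the same level sets far
away. -/
theorem infinity {K K₁ : Set E} (hK : IsCompact K) (hK₁ : IsCompact K₁) {r r₁ : ℝ} (hr : 0 < r)
    (hr₁ : 0 < r₁) (hball : closedBall (0 : E) r ⊆ K) (hball₁ : closedBall (0 : E) r₁ ⊆ K₁)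
    (htr : ∀ P Q : E, P ∉ K₁ → Q ∉ K₁ → L K P = L K Q → L K₁ P = L K₁ Q) (φ φ' : ℝ) :
    cc K₁ φ - cc K φ = cc K₁ φ' - cc K φ' ∧
    (supp K₁ (φ + Real.pi / 2) ^ 2 + supp K₁ (φ - Real.pi / 2) ^ 2) -
      (supp K (φ + Real.pi / 2) ^ 2 + supp K (φ - Real.pi / 2) ^ 2) =
    (supp K₁ (φ' + Real.pi / 2) ^ 2 + supp K₁ (φ' - Real.pi / 2) ^ 2) -
      (supp K (φ' + Real.pi / 2) ^ 2 + supp K (φ' - Real.pi / 2) ^ 2) := by
  have hne := ne_of_ball hr hball
  have key : ∀ R : ℝ, ∃ R' : ℝ, 0 ≤ R' ∧ L K (R' • v φ') = L K (R • v φ) := fun R =>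
    ray_surj hK hr hball φ' (len_le_L hK hne _)
  choose ρ hρ0 hρ using key
  have hEz := EE_tendsto_zero hK hr hball φ
  have hEz' := EE_tendsto_zero hK hr hball φ'
  have hEz1 := EE_tendsto_zero hK₁ hr₁ hball₁ φ
  have hEz1' := EE_tendsto_zero hK₁ hr₁ hball₁ φ'
  -- `E` at `0` bounds everything
  have hmono : ∀ R, 0 ≤ R → EE K φ' R ≤ EE K φ' 0 := by
    intro R hR
    unfold EE
    have hπ := Real.pi_pos
    have hcont := supp_cont hK hne
    apply intervalIntegral.integral_mono_on (by linarith)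
    · exact (by fun_prop : Continuous fun s => max (supp K s - R * Real.cos (s - φ')) 0).intervalIntegrable _ _
    · exact (by fun_prop : Continuous fun s => max (supp K s - 0 * Real.cos (s - φ')) 0).intervalIntegrable _ _
    · intro s hs
      have : 0 ≤ Real.cos (s - φ') := Real.cos_nonneg_of_mem_Icc ⟨by linarith [hs.1], by linarith [hs.2]⟩
      apply max_le_max _ le_rfl
      nlinarith
  have hρeq : ∀ R, 0 ≤ R → 2 * ρ R + cc K φ' + EE K φ' (ρ R) = 2 * R + cc K φ + EE K φ R := by
    intro R hR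
    rw [← L_ray hK hr hball (hρ0 R), ← L_ray hK hr hball hR, hρ R]
  have hρdiff : ∀ R, 0 ≤ R → |ρ R - R| ≤ |cc K φ - cc K φ'| + EE K φ R + EE K φ' 0 := by
    intro R hR
    have h1 := hρeq R hR
    have h2 := hmono (ρ R) (hρ0 R)
    have h3 := EE_nonneg K φ' (ρ R)
    have h4 := EE_nonneg K φ R
    have h5 := EE_nonneg K φ' 0
    have h6 := le_abs_self (cc K φ - cc K φ')
    have h7 := neg_abs_le (cc K φ - cc K φ')
    rw [abs_le]
    constructor <;> linarith
  have hρtop : Tendsto ρ atTop atTop := by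
    have hb : ∀ᶠ R in atTop, R - (|cc K φ - cc K φ'| + 1 + EE K φ' 0) ≤ ρ R := by
      filter_upwards [eventually_ge_atTop 0, hEz.eventually_le_const zero_lt_one] with R hR hE
      have := (abs_le.1 (hρdiff R hR)).1
      linarith
    refine tendsto_atTop_mono' _ hb ?_
    exact tendsto_atTop_add_const_right _ _ tendsto_id
  have hratio : Tendsto (fun R => R / ρ R) atTop (𝓝 1) := by
    have h1 : Tendsto (fun R => (R - ρ R) / ρ R) atTop (𝓝 0) := by
      rw [tendsto_zero_iff_norm_tendsto_zero]
      have hb : Tendsto (fun R => (|cc K φ - cc K φ'| + 1 + EE K φ' 0) / ρ R) atTop (𝓝 0) :=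
        tendsto_const_nhds.div_atTop hρtop
      apply squeeze_zero' (Eventually.of_forall fun R => norm_nonneg _) _ hb
      filter_upwards [eventually_ge_atTop 0, hEz.eventually_le_const zero_lt_one,
        hρtop.eventually_gt_atTop 0] with R hR hE hρp
      rw [norm_div, Real.norm_eq_abs, Real.norm_of_nonneg hρp.le, abs_sub_comm]
      have := hρdiff R hR
      gcongr
      linarith
    have h2 := h1.add_const 1
    rw [zero_add] at h2
    refine h2.congr' ?_
    filter_upwards [hρtop.eventually_gt_atTop 0] with R hρp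
    field_simp
    ring
  -- equality of lengths for `K₁`
  obtain ⟨M₁, hM₁⟩ := hK₁.isBounded.exists_norm_le
  have hout : ∀ ψ R : ℝ, M₁ < R → R • v ψ ∉ K₁ := by
    intro ψ R hR hmem
    have h1 := hM₁ _ hmem
    rw [norm_smul, norm_v, mul_one, Real.norm_eq_abs] at h1
    have := le_abs_self R
    linarith
  have hmain : ∀ᶠ R in atTop, (cc K₁ φ - cc K φ) + (EE K₁ φ R - EE K φ R) =
      (cc K₁ φ' - cc K φ') + (EE K₁ φ' (ρ R) - EE K φ' (ρ R)) := by
    filter_upwards [eventually_ge_atTop 0, eventually_gt_atTop M₁,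
      hρtop.eventually_gt_atTop M₁] with R hR h1 h2
    have h3 := htr _ _ (hout φ R h1) (hout φ' (ρ R) h2) (hρ R).symm
    rw [L_ray hK₁ hr₁ hball₁ hR, L_ray hK₁ hr₁ hball₁ (hρ0 R)] at h3
    have h4 := hρeq R hR
    linarith
  have hconst : cc K₁ φ - cc K φ = cc K₁ φ' - cc K φ' := by
    have l1 : Tendsto (fun R => (cc K₁ φ - cc K φ) + (EE K₁ φ R - EE K φ R)) atTop
        (𝓝 ((cc K₁ φ - cc K φ) + (0 - 0))) := (hEz1.sub hEz).const_add _
    have l2 : Tendsto (fun R => (cc K₁ φ' - cc K φ') + (EE K₁ φ' (ρ R) - EE K φ' (ρ R))) atTop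
        (𝓝 ((cc K₁ φ' - cc K φ') + (0 - 0))) :=
      ((hEz1'.comp hρtop).sub (hEz'.comp hρtop)).const_add _
    have := tendsto_nhds_unique_of_eventuallyEq l1 l2 hmain
    simpa using this
  refine ⟨hconst, ?_⟩
  have m1 := (EE_tendsto hK₁ hr₁ hball₁ φ).sub (EE_tendsto hK hr hball φ)
  have m2 := hratio.mul (((EE_tendsto hK₁ hr₁ hball₁ φ').sub (EE_tendsto hK hr hball φ')).comp hρtop)
  rw [one_mul] at m2
  have heq : (fun R => R * EE K₁ φ R - R * EE K φ R) =ᶠ[atTop]
      fun R => R / ρ R * ((fun R => R * EE K₁ φ' R - R * EE K φ' R) ∘ ρ) R := by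
    filter_upwards [hmain, hρtop.eventually_gt_atTop 0] with R h1 h2
    simp only [Function.comp_apply]
    have h3 : EE K₁ φ R - EE K φ R = EE K₁ φ' (ρ R) - EE K φ' (ρ R) := by linarith
    rw [← mul_sub, ← mul_sub, h3]
    field_simp
  have := tendsto_nhds_unique_of_eventuallyEq m1 m2 heq
  linarith

end Pool.Agent.H900.Str
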