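import Mathlib

set_option autoImplicit false

open Set Filter Topology Metric MeasureTheory
open scoped InnerProductSpace Pointwise ENNReal

namespace Pool.Agent.H900.Str

/-- the plane -/
abbrev E := EuclideanSpace ℝ (Fin 2)

/-- unit vector of angle `φ` -/
noncomputable def v (φ : ℝ) : E := !₂[Real.cos φ, Real.sin φ]
/-- its derivative -/
noncomputable def w (φ : ℝ) : E := !₂[-Real.sin φ, Real.cos φ]

@[simp] lemma v0 (φ : ℝ) : v φ 0 = Real.cos φ := by simp [v]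
@[simp] lemma v1 (φ : ℝ) : v φ 1 = Real.sin φ := by simp [v]
@[simp] lemma w0 (φ : ℝ) : w φ 0 = -Real.sin φ := by simp [w]
@[simp] lemma w1 (φ : ℝ) : w φ 1 = Real.cos φ := by simp [w]

lemma ip (x y : E) : ⟪x, y⟫_ℝ = x 0 * y 0 + x 1 * y 1 := by
  simp [PiLp.inner_apply, Fin.sum_univ_two]
  ring

lemma nsq (x : E) : ‖x‖ ^ 2 = x 0 ^ 2 + x 1 ^ 2 := by
  rw [← real_inner_self_eq_norm_sq, ip]; ring

lemma ext2 {x y : E} (h0 : x 0 = y 0) (h1 : x 1 = y 1) : x = y := by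
  ext i; fin_cases i <;> assumption

lemma norm_v (φ : ℝ) : ‖v φ‖ = 1 := by
  have h : ‖v φ‖ ^ 2 = 1 := by rw [nsq]; simp
  have h2 : 0 ≤ ‖v φ‖ := norm_nonneg _
  nlinarith

lemma v_cont : Continuous v := by
  unfold v
  fun_prop

lemma v_per (φ : ℝ) : v (φ + 2 * Real.pi) = v φ := by
  apply ext2 <;> simp

lemma v_pi (φ : ℝ) : v (φ + Real.pi) = -v φ := by
  apply ext2 <;> simp

lemma ivv (a b : ℝ) : ⟪v a, v b⟫_ℝ = Real.cos (a - b) := by
  rw [ip, Real.cos_sub]; simp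

lemma iwv (a b : ℝ) : ⟪w a, v b⟫_ℝ = Real.sin (b - a) := by
  rw [ip, Real.sin_sub]; simp; ring

/-- expansion of a vector in the rotating frame -/
lemma frame (x : E) (φ : ℝ) : x = ⟪x, v φ⟫_ℝ • v φ + ⟪x, w φ⟫_ℝ • w φ := by
  have h := Real.sin_sq_add_cos_sq φ
  apply ext2
  · simp only [PiLp.add_apply, PiLp.smul_apply, smul_eq_mul, v0, w0, ip, v1, w1]
    linear_combination (-(x 0)) * h
  · simp only [PiLp.add_apply, PiLp.smul_apply, smul_eq_mul, v0, w0, ip, v1, w1]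
    linear_combination (-(x 1)) * h

lemma inner_v_shift (x : E) (φ s : ℝ) :
    ⟪x, v (φ + s)⟫_ℝ = ⟪x, v φ⟫_ℝ * Real.cos s + ⟪x, w φ⟫_ℝ * Real.sin s := by
  simp only [ip, v0, v1, w0, w1, Real.cos_add, Real.sin_add]
  ring

lemma v_lip (a b : ℝ) : ‖v a - v b‖ ≤ |a - b| := by
  have h : ‖v a - v b‖ ^ 2 = 2 - 2 * Real.cos (a - b) := by
    rw [nsq]
    simp only [PiLp.sub_apply, v0, v1, Real.cos_sub]
    have h1 := Real.sin_sq_add_cos_sq a
    have h2 := Real.sin_sq_add_cos_sq b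
    linear_combination h1 + h2
  have h3 : 1 - (a - b) ^ 2 / 2 ≤ Real.cos (a - b) := Real.one_sub_sq_div_two_le_cos
  have h4 : ‖v a - v b‖ ^ 2 ≤ |a - b| ^ 2 := by rw [sq_abs]; linarith
  exact (pow_le_pow_iff_left₀ (norm_nonneg _) (abs_nonneg _) (by norm_num)).1 h4

/-- every nonzero vector is a positive multiple of some `v φ` -/
lemma exists_angle (x : E) : ∃ φ ∈ Ico (0 : ℝ) (2 * Real.pi), x = ‖x‖ • v φ := by
  have key : ∃ φ : ℝ, x = ‖x‖ • v φ := by
    set z : ℂ := ⟨x 0, x 1⟩ with hz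
    have hn : ‖z‖ = ‖x‖ := by
      have h1 : ‖z‖ ^ 2 = ‖x‖ ^ 2 := by
        rw [nsq, ← Complex.normSq_eq_norm_sq, Complex.normSq_apply, hz]; ring
      exact (pow_left_inj₀ (norm_nonneg _) (norm_nonneg _) (by norm_num)).1 h1
    refine ⟨Complex.arg z, ?_⟩
    apply ext2
    · rw [PiLp.smul_apply, v0, smul_eq_mul, ← hn, Complex.norm_mul_cos_arg]
    · rw [PiLp.smul_apply, v1, smul_eq_mul, ← hn, Complex.norm_mul_sin_arg]
  obtain ⟨φ, hφ⟩ := key
  have hper : Function.Periodic v (2 * Real.pi) := v_per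
  obtain ⟨ψ, hψ, hψ2⟩ := hper.exists_mem_Ico₀ (by positivity) φ
  exact ⟨ψ, hψ, by rw [← hψ2]; exact hφ⟩

/-- support function -/
noncomputable def supp (C : Set E) (φ : ℝ) : ℝ := sSup ((fun x : E => ⟪x, v φ⟫_ℝ) '' C)

lemma supp_attained {C : Set E} (hC : IsCompact C) (hne : C.Nonempty) (φ : ℝ) :
    ∃ y ∈ C, ⟪y, v φ⟫_ℝ = supp C φ := by
  have hc : ContinuousOn (fun x : E => ⟪x, v φ⟫_ℝ) C := by fun_prop
  obtain ⟨y, hy, hy2, -⟩ := hC.exists_sSup_image_eq_and_ge hne hc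
  exact ⟨y, hy, hy2.symm⟩

lemma le_supp {C : Set E} (hC : IsCompact C) {x : E} (hx : x ∈ C) (φ : ℝ) :
    ⟪x, v φ⟫_ℝ ≤ supp C φ := by
  have hc : ContinuousOn (fun x : E => ⟪x, v φ⟫_ℝ) C := by fun_prop
  exact le_csSup (hC.bddAbove_image hc) (mem_image_of_mem _ hx)

lemma supp_le {C : Set E} (hC : IsCompact C) (hne : C.Nonempty) {φ a : ℝ}
    (h : ∀ x ∈ C, ⟪x, v φ⟫_ℝ ≤ a) : supp C φ ≤ a := by
  obtain ⟨y, hy, hy2⟩ := supp_attained hC hne φ
  rw [← hy2]; exact h y hy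

lemma supp_mono {C D : Set E} (hC : IsCompact C) (hD : IsCompact D) (hne : C.Nonempty)
    (h : C ⊆ D) (φ : ℝ) : supp C φ ≤ supp D φ :=
  supp_le hC hne fun x hx => le_supp hD (h hx) φ

lemma supp_per (C : Set E) (φ : ℝ) : supp C (φ + 2 * Real.pi) = supp C φ := by
  unfold supp; rw [v_per]

lemma supp_lip {C : Set E} (hC : IsCompact C) (hne : C.Nonempty) {M : ℝ}
    (hM : ∀ x ∈ C, ‖x‖ ≤ M) (a b : ℝ) : |supp C a - supp C b| ≤ M * |a - b| := by
  have key : ∀ a b : ℝ, supp C a - supp C b ≤ M * |a - b| := by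
    intro a b
    obtain ⟨y, hy, hy2⟩ := supp_attained hC hne a
    have h1 := le_supp hC hy b
    have h2 : ⟪y, v a - v b⟫_ℝ ≤ ‖y‖ * ‖v a - v b‖ := real_inner_le_norm _ _
    have h3 : ‖y‖ * ‖v a - v b‖ ≤ M * |a - b| := by
      have := hM y hy
      have := v_lip a b
      have hn : 0 ≤ ‖y‖ := norm_nonneg _
      gcongr
      linarith
    rw [inner_sub_right] at h2
    linarith
  rw [abs_le]
  constructor
  · have := key b a
    rw [abs_sub_comm] at this
    linarith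
  · exact key a b

lemma supp_cont {C : Set E} (hC : IsCompact C) (hne : C.Nonempty) : Continuous (supp C) := by
  obtain ⟨M, hM⟩ := hC.isBounded.exists_norm_le
  have hM0 : 0 ≤ M := by
    obtain ⟨x, hx⟩ := hne
    exact (norm_nonneg x).trans (hM x hx)
  have h : LipschitzWith (Real.toNNReal M) (supp C) := by
    apply LipschitzWith.of_dist_le_mul
    intro a b
    rw [Real.coe_toNNReal _ hM0, Real.dist_eq, Real.dist_eq]
    exact supp_lip hC hne hM a b
  exact h.continuous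

/-- a compact convex set is determined by its support function -/
lemma mem_of_supp {C : Set E} (hC : IsCompact C) (hconv : Convex ℝ C) (hne : C.Nonempty) {x : E}
    (h : ∀ φ, ⟪x, v φ⟫_ℝ ≤ supp C φ) : x ∈ C := by
  by_contra hx
  obtain ⟨f, u, hf1, hf2⟩ := geometric_hahn_banach_closed_point hconv hC.isClosed hx
  set ν := (InnerProductSpace.toDual ℝ E).symm f with hν
  have hfν : ∀ y, f y = ⟪y, ν⟫_ℝ := fun y => by
    rw [real_inner_comm, hν, InnerProductSpace.toDual_symm_apply]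
  obtain ⟨φ, -, hφ⟩ := exists_angle ν
  obtain ⟨y, hy, hy2⟩ := supp_attained hC hne φ
  have h1 : f y < f x := (hf1 y hy).trans hf2
  rw [hfν, hfν, hφ, inner_smul_right, inner_smul_right, hy2] at h1
  have h2 := mul_le_mul_of_nonneg_left (h φ) (norm_nonneg ν)
  linarith

lemma mem_iff_supp {C : Set E} (hC : IsCompact C) (hconv : Convex ℝ C) (hne : C.Nonempty) {x : E} :
    x ∈ C ↔ ∀ φ, ⟪x, v φ⟫_ℝ ≤ supp C φ :=
  ⟨fun h φ => le_supp hC h φ, mem_of_supp hC hconv hne⟩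

/-- the hull of a convex body and a point -/
lemma hull_insert_eq {C : Set E} (hconv : Convex ℝ C) (hne : C.Nonempty) (x : E) :
    convexHull ℝ (insert x C) = (fun z : ℝ × E => x + z.1 • (z.2 - x)) '' (Icc 0 1 ×ˢ C) := by
  rw [convexHull_insert hne, hconv.convexHull_eq]
  ext y
  rw [mem_convexJoin]
  constructor
  · rintro ⟨a, ha, b, hb, hy⟩
    rw [mem_singleton_iff] at ha
    subst ha
    rw [segment_eq_image'] at hy
    obtain ⟨t, ht, rfl⟩ := hy
    exact ⟨(t, b), ⟨ht, hb⟩, rfl⟩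
  · rintro ⟨⟨t, b⟩, ⟨ht, hb⟩, rfl⟩
    refine ⟨x, rfl, b, hb, ?_⟩
    rw [segment_eq_image']
    exact ⟨t, ht, rfl⟩

lemma hull_insert_compact {C : Set E} (hC : IsCompact C) (hconv : Convex ℝ C) (hne : C.Nonempty)
    (x : E) : IsCompact (convexHull ℝ (insert x C)) := by
  rw [hull_insert_eq hconv hne]
  exact (isCompact_Icc.prod hC).image (by fun_prop)

lemma supp_hull {C : Set E} (hC : IsCompact C) (hconv : Convex ℝ C) (hne : C.Nonempty)
    (x : E) (φ : ℝ) :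
    supp (convexHull ℝ (insert x C)) φ = max (supp C φ) ⟪x, v φ⟫_ℝ := by
  have hcomp := hull_insert_compact hC hconv hne x
  have hne' : (convexHull ℝ (insert x C)).Nonempty :=
    ⟨x, subset_convexHull ℝ _ (mem_insert _ _)⟩
  apply le_antisymm
  · apply supp_le hcomp hne'
    intro y hy
    rw [hull_insert_eq hconv hne] at hy
    obtain ⟨⟨t, b⟩, ⟨ht, hb⟩, rfl⟩ := hy
    simp only at ht hb ⊢
    have h1 := le_supp hC hb φ
    rw [inner_add_left, inner_smul_left, inner_sub_left]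
    simp only [conj_trivial]
    have h2 : supp C φ ≤ max (supp C φ) ⟪x, v φ⟫_ℝ := le_max_left _ _
    have h3 : ⟪x, v φ⟫_ℝ ≤ max (supp C φ) ⟪x, v φ⟫_ℝ := le_max_right _ _
    nlinarith [ht.1, ht.2]
  · apply max_le
    · apply supp_mono hC hcomp hne
      exact (subset_insert _ _).trans (subset_convexHull ℝ _)
    · exact le_supp hcomp (subset_convexHull ℝ _ (mem_insert _ _)) φ

end Pool.Agent.H900.Str
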