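import Pool.Agent.H900.Str.Poly

set_option autoImplicit false

open Set Filter Topology Metric MeasureTheory
open scoped InnerProductSpace Pointwise ENNReal

namespace Pool.Agent.H900.Str

/-- Riemann sums of Lipschitz functions -/
lemma riemann {h : ℝ → ℝ} {K : ℝ} (hc : Continuous h) (hK : ∀ a b, |h a - h b| ≤ K * |a - b|)
    {N : ℕ} (hN : 5 ≤ N) {δ : ℝ} (hδ : δ = 2 * Real.pi / N) :
    |(∫ φ in (0 : ℝ)..(2 * Real.pi), h φ) - δ * ∑ i ∈ Finset.range N, h (i * δ)| ≤
      2 * Real.pi * K * δ := by
  have hδp := delta_pos hN hδ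
  have hNd := Ndelta hN hδ
  have hK0 : 0 ≤ K := by
    have := hK 1 0
    have h2 := abs_nonneg (h 1 - h 0)
    simp at this
    linarith
  have h1 : (∫ φ in (0 : ℝ)..(2 * Real.pi), h φ) =
      ∑ i ∈ Finset.range N, ∫ φ in ((i : ℝ) * δ)..(((i + 1 : ℕ) : ℝ) * δ), h φ := by
    rw [intervalIntegral.sum_integral_adjacent_intervals
      (a := fun i : ℕ => (i : ℝ) * δ) (fun k _ => hc.intervalIntegrable _ _)]
    simp only [Nat.cast_zero, zero_mul]
    rw [hNd]
  rw [h1, Finset.mul_sum, ← Finset.sum_sub_distrib]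
  refine (Finset.abs_sum_le_sum_abs _ _).trans ?_
  have h2 : ∀ i ∈ Finset.range N,
      |(∫ φ in ((i : ℝ) * δ)..(((i + 1 : ℕ) : ℝ) * δ), h φ) - δ * h (i * δ)| ≤ K * δ * δ := by
    intro i _
    have e0 : ((i + 1 : ℕ) : ℝ) * δ - (i : ℝ) * δ = δ := by push_cast; ring
    have e1 : δ * h (i * δ) = ∫ φ in ((i : ℝ) * δ)..(((i + 1 : ℕ) : ℝ) * δ), h (i * δ) := by
      rw [intervalIntegral.integral_const, e0, smul_eq_mul]
    rw [e1, ← intervalIntegral.integral_sub (hc.intervalIntegrable _ _)
      (continuous_const.intervalIntegrable _ _)]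
    have h3 := intervalIntegral.norm_integral_le_of_norm_le_const
      (a := (i : ℝ) * δ) (b := ((i + 1 : ℕ) : ℝ) * δ) (C := K * δ)
      (f := fun φ => h φ - h (i * δ)) (by
        intro x hx
        rw [Real.norm_eq_abs]
        refine (hK _ _).trans ?_
        rw [uIoc_of_le (by linarith)] at hx
        have : |x - i * δ| ≤ δ := by
          rw [abs_le]; constructor <;> linarith [hx.1, hx.2]
        gcongr)
    rw [Real.norm_eq_abs, e0, abs_of_pos hδp] at h3
    exact h3
  refine (Finset.sum_le_sum h2).trans ?_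
  rw [Finset.sum_const, Finset.card_range, nsmul_eq_mul]
  have : (N : ℝ) * (K * δ * δ) = 2 * Real.pi * K * δ := by
    rw [← hNd]; ring
  rw [this]

lemma half_angle {δ : ℝ} (h0 : 0 < δ) (hπ : δ < Real.pi) :
    2 * (1 - Real.cos δ) / Real.sin δ = 2 * Real.tan (δ / 2) := by
  have hs : 0 < Real.sin (δ / 2) := Real.sin_pos_of_pos_of_lt_pi (by linarith) (by linarith)
  have hc : 0 < Real.cos (δ / 2) := Real.cos_pos_of_mem_Ioo ⟨by linarith, by linarith⟩
  have e1 : Real.cos δ = 1 - 2 * Real.sin (δ / 2) ^ 2 := by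
    have := Real.cos_two_mul (δ / 2)
    have h2 := Real.sin_sq_add_cos_sq (δ / 2)
    have e : 2 * (δ / 2) = δ := by ring
    rw [e] at this
    rw [this]; linarith
  have e2 : Real.sin δ = 2 * Real.sin (δ / 2) * Real.cos (δ / 2) := by
    have := Real.sin_two_mul (δ / 2)
    have e : 2 * (δ / 2) = δ := by ring
    rwa [e] at this
  rw [e1, e2, Real.tan_eq_sin_div_cos]
  field_simp
  ring

lemma tendsto_tan : Tendsto (fun x : ℝ => Real.tan x / x) (𝓝[≠] 0) (𝓝 1) := by
  have h := Real.hasDerivAt_tan (x := 0) (by simp)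
  rw [hasDerivAt_iff_tendsto_slope_zero] at h
  simp only [zero_add, Real.tan_zero, sub_zero, Real.cos_zero, one_pow, div_one, smul_eq_mul] at h
  refine h.congr fun x => ?_
  rw [inv_mul_eq_div]

/-- perimeter -/
noncomputable def perim (C : Set E) : ℝ := ((μH[1] : Measure E) (frontier C)).toReal

/-- **Cauchy's formula**, with the origin inside -/
theorem cauchy_zero {C : Set E} (hC : IsCompact C) (hconv : Convex ℝ C) {r : ℝ} (hr : 0 < r)
    (hball : closedBall (0 : E) r ⊆ C) :
    (μH[1] : Measure E) (frontier C) ≠ ⊤ ∧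
      perim C = ∫ φ in (0 : ℝ)..(2 * Real.pi), supp C φ := by
  have hne : C.Nonempty := ⟨0, hball (by simp [hr.le])⟩
  obtain ⟨M, hM⟩ := hC.isBounded.exists_norm_le
  have hM0 : 0 ≤ M := by
    have := hM 0 (hball (by simp [hr.le]))
    simpa using this
  have hcont := supp_cont hC hne
  have hlip := supp_lip hC hne hM
  have hpos : ∀ φ, 0 < supp C φ := fun φ => lt_of_lt_of_le hr (supp_ge hC hr hball φ)
  set I : ℝ := ∫ φ in (0 : ℝ)..(2 * Real.pi), supp C φ with hI
  set δ : ℕ → ℝ := fun N => 2 * Real.pi / N with hδdef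
  set a : ℕ → ℝ := fun N =>
    2 * (1 - Real.cos (δ N)) / Real.sin (δ N) * ∑ i ∈ Finset.range N, supp C (i * δ N) with ha
  have hδ0 : Tendsto δ atTop (𝓝 0) := by
    have := tendsto_const_div_atTop_nhds_zero_nat (2 * Real.pi)
    exact this
  have hδne : Tendsto (fun N => δ N / 2) atTop (𝓝[≠] 0) := by
    rw [tendsto_nhdsWithin_iff]
    constructor
    · have := hδ0.div_const 2
      rwa [zero_div] at this
    · filter_upwards [eventually_ge_atTop 5] with N hN
      have := delta_pos hN (rfl : δ N = 2 * Real.pi / N)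
      have h2 : δ N / 2 ≠ 0 := by linarith
      exact h2
  -- convergence of `a`
  have hsum : Tendsto (fun N => δ N * ∑ i ∈ Finset.range N, supp C (i * δ N)) atTop (𝓝 I) := by
    rw [tendsto_iff_norm_sub_tendsto_zero]
    have hb : Tendsto (fun N => 2 * Real.pi * M * δ N) atTop (𝓝 0) := by
      have := hδ0.const_mul (2 * Real.pi * M)
      rwa [mul_zero] at this
    apply squeeze_zero' (Eventually.of_forall fun N => norm_nonneg _) _ hb
    filter_upwards [eventually_ge_atTop 5] with N hN
    rw [Real.norm_eq_abs, abs_sub_comm]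
    exact riemann hcont hlip hN rfl
  have hlim : Tendsto a atTop (𝓝 I) := by
    have h1 := (tendsto_tan.comp hδne).mul hsum
    rw [one_mul] at h1
    refine h1.congr' ?_
    filter_upwards [eventually_ge_atTop 5] with N hN
    have h2 := delta_pos hN (rfl : δ N = 2 * Real.pi / N)
    have h3 := delta_lt hN (rfl : δ N = 2 * Real.pi / N)
    simp only [ha, Function.comp_apply]
    rw [half_angle h2 (by linarith [Real.pi_pos])]
    field_simp
  -- small `δ`
  have hsmall : ∀ᶠ N in atTop, 5 ≤ N ∧ δ N ≤ 1 / 2 := by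
    refine (eventually_ge_atTop 5).and ?_
    exact hδ0.eventually_le_const (by norm_num)
  have hup : ∀ᶠ N in atTop, (μH[1] : Measure E) (frontier C) ≤ ENNReal.ofReal (a N) := by
    filter_upwards [hsmall] with N hN
    have h2 := delta_pos hN.1 (rfl : δ N = 2 * Real.pi / N)
    have h3 := perim_mono hconv hC
      ⟨0, mem_interior.2 ⟨ball 0 r, ball_subset_closedBall.trans hball, isOpen_ball,
        mem_ball_self hr⟩⟩ (PN_compact hC hr hball hM h2 hN.2) (sub_PN hC (δ N))
    rw [perim_PN hC hN.1 rfl hpos hne] at h3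
    exact h3
  have hfin : (μH[1] : Measure E) (frontier C) ≠ ⊤ := by
    obtain ⟨N, hN⟩ := hup.exists
    exact ne_top_of_le_ne_top ENNReal.ofReal_ne_top hN
  refine ⟨hfin, ?_⟩
  have hanonneg : ∀ᶠ N in atTop, 0 ≤ a N := by
    filter_upwards [hsmall] with N hN
    have h2 := delta_pos hN.1 (rfl : δ N = 2 * Real.pi / N)
    have h4 := sin_delta_pos hN.1 (rfl : δ N = 2 * Real.pi / N)
    have h5 := Real.cos_le_one (δ N)
    have h6 : 0 ≤ ∑ i ∈ Finset.range N, supp C (i * δ N) :=
      Finset.sum_nonneg fun i _ => (hpos _).le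
    simp only [ha]
    apply mul_nonneg _ h6
    apply div_nonneg _ h4.le
    linarith
  apply le_antisymm
  · apply ge_of_tendsto hlim
    filter_upwards [hup, hanonneg] with N hN hN2
    exact ENNReal.toReal_le_of_le_ofReal hN2 hN
  · have hb : Tendsto (fun N => (1 + 4 * M * δ N / r) * perim C) atTop (𝓝 (perim C)) := by
      have h1 : Tendsto (fun N => (1 + 4 * M * δ N / r) * perim C) atTop
          (𝓝 ((1 + 4 * M * 0 / r) * perim C)) := by
        exact (((hδ0.const_mul (4 * M)).div_const r).const_add 1).mul_const _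
      simpa using h1
    apply le_of_tendsto_of_tendsto hlim hb
    filter_upwards [hsmall] with N hN
    have h2 := delta_pos hN.1 (rfl : δ N = 2 * Real.pi / N)
    have hκ : 0 < 1 + 4 * M * δ N / r := by positivity
    have h3 : (μH[1] : Measure E) (frontier (PN C (δ N))) ≤
        μH[1] (frontier ((1 + 4 * M * δ N / r) • C)) := by
      apply perim_mono (PN_convex C _) (PN_compact hC hr hball hM h2 hN.2)
      · refine ⟨0, mem_interior.2 ⟨ball 0 r, ?_, isOpen_ball, mem_ball_self hr⟩⟩
        exact (ball_subset_closedBall.trans hball).trans (sub_PN hC (δ N))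
      · exact hC.smul _
      · exact PN_sub hC hconv hr hball hM h2 hN.2
    rw [perim_PN hC hN.1 rfl hpos hne, perim_smul hκ] at h3
    have h4 := ENNReal.toReal_mono (ENNReal.mul_ne_top ENNReal.ofReal_ne_top hfin) h3
    rw [ENNReal.toReal_mul, ENNReal.toReal_ofReal hκ.le] at h4
    have h5 : a N ≤ (ENNReal.ofReal (a N)).toReal := by
      rw [ENNReal.toReal_ofReal']
      exact le_max_left _ _
    exact h5.trans h4

lemma supp_translate {C : Set E} (c : E) (hC : IsCompact C) (hne : C.Nonempty) (φ : ℝ) :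
    supp ((fun x => x + c) '' C) φ = supp C φ + ⟪c, v φ⟫_ℝ := by
  have hC' : IsCompact ((fun x => x + c) '' C) := hC.image (by fun_prop)
  have hne' : ((fun x => x + c) '' C).Nonempty := hne.image _
  apply le_antisymm
  · apply supp_le hC' hne'
    rintro _ ⟨x, hx, rfl⟩
    rw [inner_add_left]
    have := le_supp hC hx φ
    linarith
  · obtain ⟨y, hy, hy2⟩ := supp_attained hC hne φ
    have := le_supp hC' (mem_image_of_mem (fun x => x + c) hy) φ
    rw [inner_add_left, hy2] at this
    exact this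

lemma integral_inner_v (c : E) : ∫ φ in (0 : ℝ)..(2 * Real.pi), ⟪c, v φ⟫_ℝ = 0 := by
  simp only [ip, v0, v1]
  rw [intervalIntegral.integral_add
    ((by fun_prop : Continuous fun x => c 0 * Real.cos x).intervalIntegrable _ _)
    ((by fun_prop : Continuous fun x => c 1 * Real.sin x).intervalIntegrable _ _),
    intervalIntegral.integral_const_mul, intervalIntegral.integral_const_mul, integral_cos,
    integral_sin]
  simp

/-- **Cauchy's formula** -/
theorem cauchy {C : Set E} (hC : IsCompact C) (hconv : Convex ℝ C) (hint : (interior C).Nonempty) :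
    perim C = ∫ φ in (0 : ℝ)..(2 * Real.pi), supp C φ := by
  obtain ⟨x₀, hx₀⟩ := hint
  obtain ⟨r, hr, hball⟩ := Metric.nhds_basis_closedBall.mem_iff.1 (mem_interior_iff_mem_nhds.1 hx₀)
  have hne : C.Nonempty := ⟨x₀, interior_subset hx₀⟩
  set D : Set E := (fun x => x + (-x₀)) '' C with hD
  have hDc : IsCompact D := hC.image (by fun_prop)
  have hDconv : Convex ℝ D := hconv.translate_preimage_left x₀ |> fun h => by
    have : D = (fun z => z + x₀) ⁻¹' C := by
      ext z
      constructor
      · rintro ⟨x, hx, rfl⟩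
        simpa using hx
      · intro hz
        exact ⟨z + x₀, hz, by simp⟩
    rw [this]
    exact h
  have hDball : closedBall (0 : E) r ⊆ D := by
    intro z hz
    refine ⟨z + x₀, hball ?_, by simp⟩
    rw [mem_closedBall, dist_eq_norm, add_sub_cancel_right]
    simpa using hz
  obtain ⟨-, h2⟩ := cauchy_zero hDc hDconv hr hDball
  have h3 : perim D = perim C := by
    unfold perim
    rw [hD, perim_translate]
  rw [← h3, h2]
  have h4 : ∀ φ, supp D φ = supp C φ + ⟪-x₀, v φ⟫_ℝ := fun φ => supp_translate (-x₀) hC hne φ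
  simp only [h4]
  rw [intervalIntegral.integral_add ((supp_cont hC hne).intervalIntegrable _ _), integral_inner_v,
    add_zero]
  have : Continuous fun φ => ⟪-x₀, v φ⟫_ℝ := continuous_const.inner v_cont
  exact this.intervalIntegrable _ _

end Pool.Agent.H900.Str
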