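import Pool.Agent.H900.Str.Struct

set_option autoImplicit false

open Set Filter Topology Metric MeasureTheory
open scoped InnerProductSpace Pointwise ENNReal

namespace Pool.Agent.H900.Str

/-- first order lower bound for the length function at a corner point -/
lemma star {C : Set E} (hC : IsCompact C) (hne : C.Nonempty) {a γ : ℝ} (h0 : 0 < γ)
    (hπ : γ < Real.pi) {P : E} (hPa : ⟪P, v a⟫_ℝ = supp C a)
    (hPb : ⟪P, v (a + γ)⟫_ℝ = supp C (a + γ)) (Q : E) :
    L C P + ∫ s in a..(a + γ), ⟪Q - P, v s⟫_ℝ ≤ L C Q := by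
  obtain ⟨W1, W2, W3⟩ := wedge hC hne h0 hπ hPa hPb
  have cP := max_cont hC hne P
  have cQ := max_cont hC hne Q
  have hpi := Real.pi_pos
  rw [L_per hC hne P a, L_per hC hne Q a,
    ← intervalIntegral.integral_add_adjacent_intervals (a := a) (b := a + γ) (c := a + 2 * Real.pi)
      (cP.intervalIntegrable _ _) (cP.intervalIntegrable _ _),
    ← intervalIntegral.integral_add_adjacent_intervals (a := a) (b := a + γ) (c := a + 2 * Real.pi)
      (cQ.intervalIntegrable _ _) (cQ.intervalIntegrable _ _)]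
  have h1 : (∫ s in a..(a + γ), max (supp C s) ⟪P, v s⟫_ℝ) + ∫ s in a..(a + γ), ⟪Q - P, v s⟫_ℝ ≤
      ∫ s in a..(a + γ), max (supp C s) ⟪Q, v s⟫_ℝ := by
    rw [← intervalIntegral.integral_add (cP.intervalIntegrable _ _)
      ((inner_v_cont _).intervalIntegrable _ _)]
    apply intervalIntegral.integral_mono_on (by linarith)
      ((cP.add (inner_v_cont _)).intervalIntegrable _ _) (cQ.intervalIntegrable _ _)
    intro s hs
    have h2 := W3 (s - a) (by linarith [hs.1]) (by linarith [hs.2])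
    rw [add_sub_cancel] at h2
    change max (supp C s) ⟪P, v s⟫_ℝ + ⟪Q - P, v s⟫_ℝ ≤ _
    rw [max_eq_right h2, inner_sub_left]
    have := le_max_right (supp C s) ⟪Q, v s⟫_ℝ
    linarith
  have h2 : (∫ s in (a + γ)..(a + 2 * Real.pi), max (supp C s) ⟪P, v s⟫_ℝ) ≤
      ∫ s in (a + γ)..(a + 2 * Real.pi), max (supp C s) ⟪Q, v s⟫_ℝ := by
    apply intervalIntegral.integral_mono_on (by linarith) (cP.intervalIntegrable _ _)
      (cQ.intervalIntegrable _ _)
    intro s hs
    have h3 : ⟪P, v s⟫_ℝ ≤ supp C s := by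
      rcases le_total s (a + γ + Real.pi) with h | h
      · have := W1 (s - (a + γ)) (Real.sin_nonneg_of_nonneg_of_le_pi (by linarith [hs.1])
          (by linarith))
        rwa [add_sub_cancel] at this
      · have h4 : Real.sin (s - a) ≤ 0 := by
          have e : s - a = (s - a - 2 * Real.pi) + 2 * Real.pi := by ring
          rw [e, Real.sin_add_two_pi]
          apply Real.sin_nonpos_of_nonpos_of_neg_pi_le <;> linarith [hs.2]
        have := W2 (s - a) h4
        rwa [add_sub_cancel] at this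
    rw [max_eq_left h3]
    exact le_max_left _ _
  linarith

lemma integral_v_quarter (X : E) (φ : ℝ) :
    ∫ s in (φ - Real.pi / 4)..(φ - Real.pi / 4 + Real.pi / 2), ⟪X, v s⟫_ℝ =
      2 * Real.sin (Real.pi / 4) * ⟪X, v φ⟫_ℝ := by
  have e : φ - Real.pi / 4 + Real.pi / 2 = φ + Real.pi / 4 := by ring
  rw [e]
  simp only [ip, v0, v1]
  rw [intervalIntegral.integral_add
    ((by fun_prop : Continuous fun x => X 0 * Real.cos x).intervalIntegrable _ _)
    ((by fun_prop : Continuous fun x => X 1 * Real.sin x).intervalIntegrable _ _),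
    intervalIntegral.integral_const_mul, intervalIntegral.integral_const_mul, integral_cos,
    integral_sin]
  rw [Real.sin_add, Real.sin_sub, Real.cos_add, Real.cos_sub]
  ring

section

variable {K : Set E} (hK : IsCompact K) (hconv : Convex ℝ K) {r : ℝ} (hr : 0 < r)
  (hball : closedBall (0 : E) r ⊆ K) (htr : Tr K) (hsym : ∀ φ, supp K (φ + Real.pi) = supp K φ)

include hK hconv hr hball htr hsym

lemma sym_Sub {ℓ : ℝ} (hℓ : len K < ℓ) (φ : ℝ) :
    supp (Sub K ℓ) (φ + Real.pi) = supp (Sub K ℓ) φ := by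
  have := F1 hK hconv hr hball htr hℓ φ
  rw [hsym] at this
  linarith

lemma exists_lam {ℓ : ℝ} (hℓ : len K < ℓ) :
    ∃ lam : ℝ, ∀ φ, supp (Sub K ℓ) φ ^ 2 = supp K φ ^ 2 + lam := by
  obtain ⟨c, hc⟩ := F2 hK hconv hr hball htr hℓ
  refine ⟨c / 2, fun φ => ?_⟩
  have h1 := hc φ
  rw [hsym, sym_Sub hK hconv hr hball htr hsym hℓ] at h1
  linarith

lemma exists_level {ℓ1 : ℝ} (hℓ1 : len K < ℓ1) (φ : ℝ) {P : E}
    (hPa : ⟪P, v (φ - Real.pi / 4)⟫_ℝ = supp (Sub K ℓ1) (φ - Real.pi / 4))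
    (hPb : ⟪P, v (φ - Real.pi / 4 + Real.pi / 2)⟫_ℝ =
      supp (Sub K ℓ1) (φ - Real.pi / 4 + Real.pi / 2)) :
    ∃ ℓ3, len K < ℓ3 ∧ P ∈ Sub K ℓ3 ∧ supp (Sub K ℓ3) φ = ⟪P, v φ⟫_ℝ := by
  have hne := ne_of_ball hr hball
  have hc := Sub_compact hK hne ℓ1
  have hn := Sub_nonempty hK hne hℓ1.le
  have hπ := Real.pi_pos
  by_cases hP : P ∈ Sub K ℓ1
  · refine ⟨ℓ1, hℓ1, hP, le_antisymm ?_ (le_supp hc hP φ)⟩
    have := (wedge hc hn (by linarith : 0 < Real.pi / 2) (by linarith) hPa hPb).2.2 (Real.pi / 4)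
      (by linarith) (by linarith)
    rwa [sub_add_cancel] at this
  · have h1 := len_lt_L hc hn (Sub_convex hK hne ℓ1) hP
    obtain ⟨ℓ3, h3⟩ := htr ℓ1 hℓ1 _ h1
    have h4 : L K P = ℓ3 := (h3 P).1 rfl
    have hPK : P ∉ K := fun h => hP (sub_Sub hK hne hℓ1.le h)
    have h5 := len_lt_L hK hne hconv hPK
    rw [h4] at h5
    have hPm : P ∈ Sub K ℓ3 := le_of_eq h4
    have hc3 := Sub_compact hK hne ℓ3
    have hn3 := Sub_nonempty hK hne h5.le
    refine ⟨ℓ3, h5, hPm, le_antisymm ?_ (le_supp hc3 hPm φ)⟩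
    obtain ⟨Q, hQ, hQ2⟩ := supp_attained hc3 hn3 φ
    have h6 := max_level hK hne hQ hQ2
    have h7 := (h3 Q).2 h6
    have h8 := star hc hn (by linarith : 0 < Real.pi / 2) (by linarith) hPa hPb Q
    rw [integral_v_quarter, h7, inner_sub_left] at h8
    have h9 : 0 < Real.sin (Real.pi / 4) := Real.sin_pos_of_pos_of_lt_pi (by linarith) (by linarith)
    rw [← hQ2]
    by_contra hcon
    push Not at hcon
    have := mul_pos h9 (sub_pos.2 hcon)
    linarith

lemma key_ineq {ℓ1 : ℝ} (hℓ1 : len K < ℓ1) (φ ψ : ℝ) :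
    (supp K (φ + Real.pi / 4) ^ 2 - supp K (φ - Real.pi / 4) ^ 2) *
      (Real.sin (ψ - φ) * Real.cos (ψ - φ)) -
      2 * (supp (Sub K ℓ1) (φ - Real.pi / 4) * supp (Sub K ℓ1) (φ + Real.pi / 4)) *
        Real.sin (ψ - φ) ^ 2 ≤ supp K ψ ^ 2 - supp K φ ^ 2 := by
  have hne := ne_of_ball hr hball
  have hc := Sub_compact hK hne ℓ1
  have hn := Sub_nonempty hK hne hℓ1.le
  set P := corner (Sub K ℓ1) (φ - Real.pi / 4) (Real.pi / 2) with hP
  have hPa : ⟪P, v (φ - Real.pi / 4)⟫_ℝ = supp (Sub K ℓ1) (φ - Real.pi / 4) := corner_a _ _ _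
  have hPb : ⟪P, v (φ - Real.pi / 4 + Real.pi / 2)⟫_ℝ =
      supp (Sub K ℓ1) (φ - Real.pi / 4 + Real.pi / 2) := corner_b _ _ (by simp)
  obtain ⟨ℓ3, hℓ3, hPm, hP3⟩ := exists_level hK hconv hr hball htr hsym hℓ1 φ hPa hPb
  have hc3 := Sub_compact hK hne ℓ3
  obtain ⟨l3, hl3⟩ := exists_lam hK hconv hr hball htr hsym hℓ3
  obtain ⟨l1, hl1⟩ := exists_lam hK hconv hr hball htr hsym hℓ1
  have e : φ - Real.pi / 4 + Real.pi / 2 = φ + Real.pi / 4 := by ring
  rw [e] at hPb
  set p := ⟪P, v φ⟫_ℝ with hp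
  set q := ⟪P, w φ⟫_ℝ with hq
  set a := supp (Sub K ℓ1) (φ - Real.pi / 4) with ha
  set b := supp (Sub K ℓ1) (φ + Real.pi / 4) with hb
  have ea : p * (√2 / 2) - q * (√2 / 2) = a := by
    have := inner_v_shift P φ (-(Real.pi / 4))
    rw [Real.cos_neg, Real.sin_neg, Real.cos_pi_div_four, Real.sin_pi_div_four, ← sub_eq_add_neg,
      hPa] at this
    linarith
  have eb : p * (√2 / 2) + q * (√2 / 2) = b := by
    have := inner_v_shift P φ (Real.pi / 4)
    rw [Real.cos_pi_div_four, Real.sin_pi_div_four, hPb] at this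
    linarith
  have h2 : √2 ^ 2 = 2 := Real.sq_sqrt (by norm_num)
  have e1 : b ^ 2 - a ^ 2 = 2 * p * q := by
    rw [← ea, ← eb]
    linear_combination (p * q) * h2
  have e2 : 2 * (a * b) = p ^ 2 - q ^ 2 := by
    rw [← ea, ← eb]
    linear_combination ((p ^ 2 - q ^ 2) / 2) * h2
  have e3 : supp K (φ + Real.pi / 4) ^ 2 - supp K (φ - Real.pi / 4) ^ 2 = 2 * p * q := by
    rw [← e1]
    have k1 := hl1 (φ + Real.pi / 4)
    have k2 := hl1 (φ - Real.pi / 4)
    linarith
  -- the main inequality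
  have h4 : ⟪P, v ψ⟫_ℝ ^ 2 ≤ supp (Sub K ℓ3) ψ ^ 2 := by
    apply sq_le_sq'
    · have k1 := le_supp hc3 hPm (ψ + Real.pi)
      rw [sym_Sub hK hconv hr hball htr hsym hℓ3, v_pi, inner_neg_right] at k1
      linarith
    · exact le_supp hc3 hPm ψ
  have h5 : ⟪P, v ψ⟫_ℝ = p * Real.cos (ψ - φ) + q * Real.sin (ψ - φ) := by
    have := inner_v_shift P φ (ψ - φ)
    rwa [add_sub_cancel] at this
  have h6 := hl3 φ
  have h7 := hl3 ψ
  rw [hP3] at h6
  rw [h5, h7] at h4
  have h8 := Real.sin_sq_add_cos_sq (ψ - φ)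
  rw [e3, e2]
  have h9 : (p * Real.cos (ψ - φ) + q * Real.sin (ψ - φ)) ^ 2 - p ^ 2 =
      2 * p * q * (Real.sin (ψ - φ) * Real.cos (ψ - φ)) - (p ^ 2 - q ^ 2) * Real.sin (ψ - φ) ^ 2 := by
    linear_combination (p ^ 2) * h8
  linarith

lemma hasDeriv_g (φ : ℝ) : HasDerivAt (fun φ => supp K φ ^ 2)
    (supp K (φ + Real.pi / 4) ^ 2 - supp K (φ - Real.pi / 4) ^ 2) φ := by
  have hne := ne_of_ball hr hball
  have hcont := supp_cont hK hne
  obtain ⟨ℓ1, hℓ1⟩ := exists_gt (len K)
  have hc := Sub_compact hK hne ℓ1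
  have hn := Sub_nonempty hK hne hℓ1.le
  obtain ⟨M, hM⟩ := hc.isBounded.exists_norm_le
  have hb : ∀ φ, 0 ≤ supp (Sub K ℓ1) φ ∧ supp (Sub K ℓ1) φ ≤ M := by
    intro φ
    have h1 := supp_ge hc hr (ball_Sub hK hr hball hℓ1.le) φ
    refine ⟨by linarith, ?_⟩
    apply supp_le hc hn
    intro y hy
    have := real_inner_le_norm y (v φ)
    rw [norm_v, mul_one] at this
    exact this.trans (hM y hy)
  set G : ℝ → ℝ := fun φ => supp K (φ + Real.pi / 4) ^ 2 - supp K (φ - Real.pi / 4) ^ 2 with hG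
  have hGc : Continuous G := by fun_prop
  have hM0 : 0 ≤ M := (hb 0).1.trans (hb 0).2
  have key : ∀ φ ψ, G φ * (Real.sin (ψ - φ) * Real.cos (ψ - φ)) - 2 * M ^ 2 * Real.sin (ψ - φ) ^ 2 ≤
      supp K ψ ^ 2 - supp K φ ^ 2 := by
    intro φ ψ
    refine le_trans ?_ (key_ineq hK hconv hr hball htr hsym hℓ1 φ ψ)
    have h1 : supp (Sub K ℓ1) (φ - Real.pi / 4) * supp (Sub K ℓ1) (φ + Real.pi / 4) ≤ M ^ 2 := by
      rw [sq]
      exact mul_le_mul (hb _).2 (hb _).2 (hb _).1 hM0
    have h2 : 0 ≤ Real.sin (ψ - φ) ^ 2 := sq_nonneg _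
    have h3 := mul_le_mul_of_nonneg_right h1 h2
    simp only [hG]
    linarith
  have hsc : HasDerivAt (fun ψ => Real.sin (ψ - φ) * Real.cos (ψ - φ)) 1 φ := by
    have h1 : HasDerivAt (fun ψ => Real.sin (ψ - φ)) (Real.cos (φ - φ)) φ := by
      have := (Real.hasDerivAt_sin (φ - φ)).comp_sub_const φ φ
      exact this
    have h2 : HasDerivAt (fun ψ => Real.cos (ψ - φ)) (- Real.sin (φ - φ)) φ := by
      have := (Real.hasDerivAt_cos (φ - φ)).comp_sub_const φ φ
      exact this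
    exact (h1.mul h2).congr_deriv (by simp)
  change HasDerivAt (fun φ => supp K φ ^ 2) (G φ) φ
  rw [hasDerivAt_iff_isLittleO] at hsc ⊢
  rw [Asymptotics.isLittleO_iff] at hsc ⊢
  intro c hc0
  have c1 : 0 < c / (3 * (|G φ| + 1)) := by positivity
  have ev1 := hsc c1
  have ev2 : ∀ᶠ ψ in 𝓝 φ, |G ψ - G φ| < c / 3 := by
    have := (hGc.tendsto φ)
    rw [Metric.tendsto_nhds] at this
    exact this (c / 3) (by positivity)
  have ev3 : ∀ᶠ ψ in 𝓝 φ, 2 * M ^ 2 * |ψ - φ| < c / 3 := by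
    have h1 : Continuous fun ψ => 2 * M ^ 2 * |ψ - φ| := by fun_prop
    have h2 : Tendsto (fun ψ => 2 * M ^ 2 * |ψ - φ|) (𝓝 φ) (𝓝 0) := by
      have := h1.tendsto φ
      simpa using this
    exact h2.eventually_lt_const (by positivity)
  filter_upwards [ev1, ev2, ev3] with ψ h1 h2 h3
  simp only [sub_self, Real.sin_zero, Real.cos_zero, zero_mul, sub_zero, smul_eq_mul, mul_one,
    Real.norm_eq_abs] at h1 ⊢
  have k1 := key φ ψ
  have k2 := key ψ φ
  have e1 : φ - ψ = -(ψ - φ) := by ring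
  rw [e1, Real.sin_neg, Real.cos_neg] at k2
  set s := ψ - φ with hs
  set X := Real.sin s * Real.cos s with hX
  have hsin : |Real.sin s| ≤ |s| := Real.abs_sin_le_abs
  have hXs : |X| ≤ |s| := by
    rw [hX, abs_mul]
    have := Real.abs_cos_le_one s
    have := abs_nonneg (Real.sin s)
    nlinarith [abs_nonneg (Real.cos s)]
  have hsq : Real.sin s ^ 2 ≤ |s| * |s| := by
    rw [← sq_abs, sq]
    exact mul_le_mul hsin hsin (abs_nonneg _) (abs_nonneg _)
  have b1 : 2 * M ^ 2 * Real.sin s ^ 2 ≤ c / 3 * |s| := by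
    have : 2 * M ^ 2 * Real.sin s ^ 2 ≤ 2 * M ^ 2 * (|s| * |s|) := by gcongr
    have h5 := mul_le_mul_of_nonneg_right h3.le (abs_nonneg s)
    linarith
  have b2 : |G φ * (X - s)| ≤ c / 3 * |s| := by
    rw [abs_mul]
    have h5 : |G φ| * |X - s| ≤ |G φ| * (c / (3 * (|G φ| + 1)) * |s|) := by gcongr
    refine h5.trans ?_
    have h6 : |G φ| * (c / (3 * (|G φ| + 1))) ≤ c / 3 := by
      rw [mul_div_assoc', div_le_div_iff₀ (by positivity) (by norm_num)]
      have := abs_nonneg (G φ)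
      nlinarith
    rw [← mul_assoc]
    exact mul_le_mul_of_nonneg_right h6 (abs_nonneg s)
  have b3 : |(G ψ - G φ) * X| ≤ c / 3 * |s| := by
    rw [abs_mul]
    exact mul_le_mul h2.le hXs (abs_nonneg _) (by positivity)
  rw [abs_le]
  have a1 := abs_le.1 b2
  have a2 := abs_le.1 b3
  constructor
  · have : c * |s| = c / 3 * |s| + c / 3 * |s| + c / 3 * |s| := by ring
    nlinarith [a1.1, a1.2, abs_nonneg s]
  · have : c * |s| = c / 3 * |s| + c / 3 * |s| + c / 3 * |s| := by ring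
    nlinarith [a1.1, a1.2, a2.1, a2.2]

lemma quad : ∃ q11 q12 q22 : ℝ, ∀ φ, supp K φ ^ 2 =
    q11 * Real.cos φ ^ 2 + 2 * q12 * (Real.cos φ * Real.sin φ) + q22 * Real.sin φ ^ 2 := by
  set g : ℝ → ℝ := fun φ => supp K φ ^ 2 with hg
  have hper : ∀ φ, g (φ + Real.pi) = g φ := fun φ => by simp only [hg, hsym]
  have hd : ∀ φ, HasDerivAt g (g (φ + Real.pi / 4) - g (φ - Real.pi / 4)) φ :=
    fun φ => hasDeriv_g hK hconv hr hball htr hsym φ
  -- `A` is constant
  have hA : ∀ φ, g φ + g (φ + Real.pi / 2) = g 0 + g (Real.pi / 2) := by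
    intro φ
    have hdu : ∀ x, HasDerivAt (fun φ => g φ + g (φ + Real.pi / 2)) 0 x := by
      intro x
      have := (hd x).add ((hd (x + Real.pi / 2)).comp_add_const x (Real.pi / 2))
      refine this.congr_deriv ?_
      have e1 : x + Real.pi / 2 + Real.pi / 4 = x - Real.pi / 4 + Real.pi := by ring
      have e2 : x + Real.pi / 2 - Real.pi / 4 = x + Real.pi / 4 := by ring
      rw [e1, e2, hper]
      ring
    have := is_const_of_deriv_eq_zero (fun x => (hdu x).differentiableAt) (fun x => (hdu x).deriv) φ 0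
    simpa using this
  set B : ℝ → ℝ := fun φ => g φ - g (φ + Real.pi / 2) with hB
  have hB1 : ∀ φ, B (φ + Real.pi / 2) = - B φ := by
    intro φ
    simp only [hB]
    have e : φ + Real.pi / 2 + Real.pi / 2 = φ + Real.pi := by ring
    rw [e, hper]
    ring
  have hdB : ∀ x, HasDerivAt B (2 * B (x + Real.pi / 4)) x := by
    intro x
    have := (hd x).sub ((hd (x + Real.pi / 2)).comp_add_const x (Real.pi / 2))
    refine this.congr_deriv ?_
    have e1 : x + Real.pi / 2 + Real.pi / 4 = x - Real.pi / 4 + Real.pi := by ring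
    have e2 : x + Real.pi / 2 - Real.pi / 4 = x + Real.pi / 4 := by ring
    have e3 : x + Real.pi / 4 + Real.pi / 2 = x - Real.pi / 4 + Real.pi := by ring
    simp only [hB]
    rw [e1, e2, e3, hper]
    ring
  have hdB2 : ∀ x, HasDerivAt (fun x => B (x + Real.pi / 4)) (- (2 * B x)) x := by
    intro x
    have := (hdB (x + Real.pi / 4)).comp_add_const x (Real.pi / 4)
    refine this.congr_deriv ?_
    have e : x + Real.pi / 4 + Real.pi / 4 = x + Real.pi / 2 := by ring
    rw [e, hB1]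
    ring
  have hc2 : ∀ x, HasDerivAt (fun x => Real.cos (2 * x)) (-(2 * Real.sin (2 * x))) x := by
    intro x
    have := (Real.hasDerivAt_cos (2 * x)).comp x ((hasDerivAt_id x).const_mul 2)
    exact this.congr_deriv (by simp; ring)
  have hs2 : ∀ x, HasDerivAt (fun x => Real.sin (2 * x)) (2 * Real.cos (2 * x)) x := by
    intro x
    have := (Real.hasDerivAt_sin (2 * x)).comp x ((hasDerivAt_id x).const_mul 2)
    exact this.congr_deriv (by simp; ring)
  have hU : ∀ φ, B φ * Real.cos (2 * φ) - B (φ + Real.pi / 4) * Real.sin (2 * φ) = B 0 := by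
    intro φ
    have hdu : ∀ x, HasDerivAt
        (fun φ => B φ * Real.cos (2 * φ) - B (φ + Real.pi / 4) * Real.sin (2 * φ)) 0 x := by
      intro x
      have := ((hdB x).mul (hc2 x)).sub ((hdB2 x).mul (hs2 x))
      exact this.congr_deriv (by ring)
    have := is_const_of_deriv_eq_zero (fun x => (hdu x).differentiableAt) (fun x => (hdu x).deriv) φ 0
    simpa using this
  have hW : ∀ φ, B φ * Real.sin (2 * φ) + B (φ + Real.pi / 4) * Real.cos (2 * φ) =
      B (Real.pi / 4) := by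
    intro φ
    have hdu : ∀ x, HasDerivAt
        (fun φ => B φ * Real.sin (2 * φ) + B (φ + Real.pi / 4) * Real.cos (2 * φ)) 0 x := by
      intro x
      have := ((hdB x).mul (hs2 x)).add ((hdB2 x).mul (hc2 x))
      exact this.congr_deriv (by ring)
    have := is_const_of_deriv_eq_zero (fun x => (hdu x).differentiableAt) (fun x => (hdu x).deriv) φ 0
    simpa using this
  set A := g 0 + g (Real.pi / 2) with hAdef
  refine ⟨(A + B 0) / 2, B (Real.pi / 4) / 2, (A - B 0) / 2, fun φ => ?_⟩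
  change g φ = _
  have h1 := hA φ
  have h2 : B φ = g φ - g (φ + Real.pi / 2) := rfl
  have h3 := hU φ
  have h4 := hW φ
  have h5 := Real.sin_sq_add_cos_sq (2 * φ)
  have h6 := Real.sin_sq_add_cos_sq φ
  have h7 : B φ = B 0 * Real.cos (2 * φ) + B (Real.pi / 4) * Real.sin (2 * φ) := by
    rw [← h3, ← h4]
    linear_combination (- B φ) * h5
  have h8 : g φ = (A + B φ) / 2 := by linarith
  rw [h8, h7, Real.cos_two_mul', Real.sin_two_mul]
  linear_combination (-A / 2) * h6

end

/-- a convex body whose squared support function is a quadratic form is an ellipse -/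
lemma ellipse_of_supp {K : Set E} (hK : IsCompact K) (hconv : Convex ℝ K) (hne : K.Nonempty)
    (hpos : ∀ φ, 0 < supp K φ) {q11 q12 q22 : ℝ}
    (hq : ∀ φ, supp K φ ^ 2 =
      q11 * Real.cos φ ^ 2 + 2 * q12 * (Real.cos φ * Real.sin φ) + q22 * Real.sin φ ^ 2) :
    ∃ T : E ≃ₗ[ℝ] E, K = T '' closedBall 0 1 := by
  have h11 : 0 < q11 := by
    have := hq 0
    simp only [Real.cos_zero, Real.sin_zero] at this
    have h2 := hpos 0
    have h3 : 0 < supp K 0 ^ 2 := by positivity
    linarith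
  have hdet : 0 < q11 * q22 - q12 ^ 2 := by
    obtain ⟨φ, -, hφ⟩ := exists_angle (!₂[q12, -q11] : E)
    set n : ℝ := ‖(!₂[q12, -q11] : E)‖ with hn
    have e0 : q12 = n * Real.cos φ := by
      have := congrArg (fun x : E => x 0) hφ
      simpa using this
    have e1 : -q11 = n * Real.sin φ := by
      have := congrArg (fun x : E => x 1) hφ
      simpa using this
    have hn0 : n ≠ 0 := by
      intro h
      rw [h, zero_mul] at e1
      linarith
    have h1 := hq φ
    have h2 : 0 < supp K φ ^ 2 := by have := hpos φ; positivity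
    have h3 : 0 < n ^ 2 * supp K φ ^ 2 := by positivity
    have h4 : n ^ 2 * supp K φ ^ 2 = q11 * (q11 * q22 - q12 ^ 2) := by
      rw [h1]
      have : n ^ 2 * (q11 * Real.cos φ ^ 2 + 2 * q12 * (Real.cos φ * Real.sin φ) +
        q22 * Real.sin φ ^ 2) = q11 * (n * Real.cos φ) ^ 2 + 2 * q12 * ((n * Real.cos φ) *
        (n * Real.sin φ)) + q22 * (n * Real.sin φ) ^ 2 := by ring
      rw [this, ← e0, ← e1]
      ring
    rw [h4] at h3
    exact (mul_pos_iff_of_pos_left h11).1 h3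
  set s : ℝ := √q11 with hs
  have hs0 : 0 < s := Real.sqrt_pos.2 h11
  have hss : s ^ 2 = q11 := Real.sq_sqrt h11.le
  set t : ℝ := q12 / s with ht
  set u : ℝ := √(q11 * q22 - q12 ^ 2) / s with hu
  have hu0 : 0 < u := div_pos (Real.sqrt_pos.2 hdet) hs0
  have hst : s * t = q12 := by rw [ht]; field_simp
  have htu : t ^ 2 + u ^ 2 = q22 := by
    rw [ht, hu, div_pow, div_pow, Real.sq_sqrt hdet.le, hss]
    field_simp
    ring
  let T : E ≃ₗ[ℝ] E :=
    { toFun := fun x => !₂[s * x 0, t * x 0 + u * x 1]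
      map_add' := by
        intro x y
        apply ext2
        · simp; ring
        · simp; ring
      map_smul' := by
        intro c x
        apply ext2
        · simp; ring
        · simp; ring
      invFun := fun y => !₂[y 0 / s, (y 1 - t * (y 0 / s)) / u]
      left_inv := by
        intro x
        apply ext2
        · simp; field_simp
        · simp; field_simp; ring
      right_inv := by
        intro x
        apply ext2
        · simp; field_simp
        · simp; field_simp; ring }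
  have hT0 : ∀ x : E, (T x) 0 = s * x 0 := fun x => rfl
  have hT1 : ∀ x : E, (T x) 1 = t * x 0 + u * x 1 := fun x => rfl
  have hTc : Continuous T := by
    have : Continuous (T : E →ₗ[ℝ] E) := LinearMap.continuous_of_finiteDimensional _
    exact this
  refine ⟨T, ?_⟩
  have hD : IsCompact (T '' closedBall (0 : E) 1) := (isCompact_closedBall _ _).image hTc
  have hDc : Convex ℝ (T '' closedBall (0 : E) 1) :=
    (convex_closedBall (0 : E) 1).linear_image (T : E →ₗ[ℝ] E)
  have hDne : (T '' closedBall (0 : E) 1).Nonempty := ⟨T 0, 0, by simp, rfl⟩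
  have hquad : ∀ φ, supp K φ ^ 2 = (s * Real.cos φ + t * Real.sin φ) ^ 2 + (u * Real.sin φ) ^ 2 := by
    intro φ
    rw [hq, ← hss, ← hst, ← htu]
    ring
  have hsupp : ∀ φ, supp (T '' closedBall (0 : E) 1) φ = supp K φ := by
    intro φ
    apply le_antisymm
    · apply supp_le hD hDne
      rintro _ ⟨y, hy, rfl⟩
      rw [mem_closedBall, dist_zero_right] at hy
      have hy2 : y 0 ^ 2 + y 1 ^ 2 ≤ 1 := by
        rw [← nsq]
        exact pow_le_one₀ (norm_nonneg _) hy
      apply le_of_sq_le_sq _ (hpos φ).le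
      rw [hquad, ip, hT0, hT1, v0, v1]
      have e : s * y 0 * Real.cos φ + (t * y 0 + u * y 1) * Real.sin φ =
        y 0 * (s * Real.cos φ + t * Real.sin φ) + y 1 * (u * Real.sin φ) := by ring
      rw [e]
      set α := s * Real.cos φ + t * Real.sin φ
      set β := u * Real.sin φ
      nlinarith [sq_nonneg (y 0 * β - y 1 * α), sq_nonneg α, sq_nonneg β,
        mul_le_mul_of_nonneg_right hy2 (add_nonneg (sq_nonneg α) (sq_nonneg β))]
    · set y : E := (supp K φ)⁻¹ • !₂[s * Real.cos φ + t * Real.sin φ, u * Real.sin φ] with hy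
      have y0 : y 0 = (supp K φ)⁻¹ * (s * Real.cos φ + t * Real.sin φ) := rfl
      have y1 : y 1 = (supp K φ)⁻¹ * (u * Real.sin φ) := rfl
      have hne0 : supp K φ ≠ 0 := (hpos φ).ne'
      have hymem : y ∈ closedBall (0 : E) 1 := by
        rw [mem_closedBall, dist_zero_right]
        have : ‖y‖ ^ 2 = 1 := by
          rw [nsq, y0, y1, mul_pow, mul_pow, ← mul_add, ← hquad]
          field_simp
        have h2 := norm_nonneg y
        nlinarith
      have h1 := le_supp hD (mem_image_of_mem T hymem) φ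
      refine le_trans (le_of_eq ?_) h1
      rw [ip, hT0, hT1, y0, y1, v0, v1]
      have e : s * ((supp K φ)⁻¹ * (s * Real.cos φ + t * Real.sin φ)) * Real.cos φ +
        (t * ((supp K φ)⁻¹ * (s * Real.cos φ + t * Real.sin φ)) +
          u * ((supp K φ)⁻¹ * (u * Real.sin φ))) * Real.sin φ =
        (supp K φ)⁻¹ * ((s * Real.cos φ + t * Real.sin φ) ^ 2 + (u * Real.sin φ) ^ 2) := by ring
      rw [e, ← hquad]
      field_simp
  ext x
  rw [mem_iff_supp hK hconv hne, mem_iff_supp hD hDc hDne]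
  simp only [hsupp]

end Pool.Agent.H900.Str
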