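import Pool.Agent.H900.Str.Cauchy

set_option autoImplicit false

open Set Filter Topology Metric MeasureTheory
open scoped InnerProductSpace Pointwise ENNReal

namespace Pool.Agent.H900.Str

/-- the length of the string around `C` through `P` -/
noncomputable def L (C : Set E) (P : E) : ℝ :=
  ∫ φ in (0 : ℝ)..(2 * Real.pi), max (supp C φ) ⟪P, v φ⟫_ℝ

/-- the length of the boundary -/
noncomputable def len (C : Set E) : ℝ := ∫ φ in (0 : ℝ)..(2 * Real.pi), supp C φ

lemma inner_v_cont (P : E) : Continuous fun φ => ⟪P, v φ⟫_ℝ := continuous_const.inner v_cont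

lemma inner_v_per (P : E) (φ : ℝ) : ⟪P, v (φ + 2 * Real.pi)⟫_ℝ = ⟪P, v φ⟫_ℝ := by rw [v_per]

section

variable {C : Set E} (hC : IsCompact C) (hne : C.Nonempty)

include hC hne

lemma max_cont (P : E) : Continuous fun φ => max (supp C φ) ⟪P, v φ⟫_ℝ :=
  (supp_cont hC hne).max (inner_v_cont P)

lemma perim_hull (hconv : Convex ℝ C) (hint : (interior C).Nonempty) (P : E) :
    perim (convexHull ℝ (insert P C)) = L C P := by
  rw [cauchy (hull_insert_compact hC hconv hne P) (convex_convexHull ℝ _)]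
  · unfold L
    congr 1
    ext φ
    exact supp_hull hC hconv hne P φ
  · exact hint.mono (interior_mono ((subset_insert _ _).trans (subset_convexHull ℝ _)))

lemma L_lip (P Q : E) : |L C P - L C Q| ≤ 2 * Real.pi * ‖P - Q‖ := by
  unfold L
  rw [← intervalIntegral.integral_sub ((max_cont hC hne P).intervalIntegrable _ _)
    ((max_cont hC hne Q).intervalIntegrable _ _)]
  have h := intervalIntegral.norm_integral_le_of_norm_le_const
    (a := (0 : ℝ)) (b := 2 * Real.pi) (C := ‖P - Q‖)
    (f := fun φ => max (supp C φ) ⟪P, v φ⟫_ℝ - max (supp C φ) ⟪Q, v φ⟫_ℝ) (by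
      intro φ _
      rw [Real.norm_eq_abs]
      have h1 := abs_max_sub_max_le_abs ⟪P, v φ⟫_ℝ ⟪Q, v φ⟫_ℝ (supp C φ)
      rw [max_comm _ (supp C φ), max_comm _ (supp C φ)] at h1
      refine h1.trans ?_
      rw [← inner_sub_left]
      have := abs_real_inner_le_norm (P - Q) (v φ)
      rwa [norm_v, mul_one] at this)
  rw [Real.norm_eq_abs, sub_zero, abs_of_pos Real.two_pi_pos] at h
  linarith

lemma L_cont : Continuous (L C) := by
  have h : LipschitzWith (Real.toNNReal (2 * Real.pi)) (L C) := by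
    apply LipschitzWith.of_dist_le_mul
    intro a b
    rw [Real.coe_toNNReal _ Real.two_pi_pos.le, Real.dist_eq, dist_eq_norm]
    exact L_lip hC hne a b
  exact h.continuous

lemma L_convex {P Q : E} {a b : ℝ} (ha : 0 ≤ a) (hb : 0 ≤ b) (hab : a + b = 1) :
    L C (a • P + b • Q) ≤ a * L C P + b * L C Q := by
  unfold L
  have c1 : Continuous fun φ => a * max (supp C φ) ⟪P, v φ⟫_ℝ :=
    continuous_const.mul (max_cont hC hne P)
  have c2 : Continuous fun φ => b * max (supp C φ) ⟪Q, v φ⟫_ℝ :=
    continuous_const.mul (max_cont hC hne Q)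
  rw [← intervalIntegral.integral_const_mul, ← intervalIntegral.integral_const_mul,
    ← intervalIntegral.integral_add (c1.intervalIntegrable _ _) (c2.intervalIntegrable _ _)]
  apply intervalIntegral.integral_mono_on Real.two_pi_pos.le
    ((max_cont hC hne _).intervalIntegrable _ _)
  · exact (c1.add c2).intervalIntegrable _ _
  · intro φ _
    apply max_le
    · have h1 : supp C φ = a * supp C φ + b * supp C φ := by rw [← add_mul, hab, one_mul]
      have h2 := mul_le_mul_of_nonneg_left (le_max_left (supp C φ) ⟪P, v φ⟫_ℝ) ha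
      have h3 := mul_le_mul_of_nonneg_left (le_max_left (supp C φ) ⟪Q, v φ⟫_ℝ) hb
      linarith
    · rw [inner_add_left, inner_smul_left, inner_smul_left]
      simp only [conj_trivial]
      have h2 := mul_le_mul_of_nonneg_left (le_max_right (supp C φ) ⟪P, v φ⟫_ℝ) ha
      have h3 := mul_le_mul_of_nonneg_left (le_max_right (supp C φ) ⟪Q, v φ⟫_ℝ) hb
      linarith

lemma len_le_L (P : E) : len C ≤ L C P := by
  unfold len L
  apply intervalIntegral.integral_mono_on Real.two_pi_pos.le
    ((supp_cont hC hne).intervalIntegrable _ _) ((max_cont hC hne _).intervalIntegrable _ _)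
  intro φ _
  exact le_max_left _ _

lemma L_of_mem {P : E} (hP : P ∈ C) : L C P = len C := by
  unfold len L
  congr 1
  ext φ
  exact max_eq_left (le_supp hC hP φ)

lemma len_lt_L (hconv : Convex ℝ C) {P : E} (hP : P ∉ C) : len C < L C P := by
  have h1 : ∃ φ, supp C φ < ⟪P, v φ⟫_ℝ := by
    by_contra hcon
    push Not at hcon
    exact hP (mem_of_supp hC hconv hne hcon)
  obtain ⟨φ, hφ⟩ := h1
  have hper : Function.Periodic (fun φ => supp C φ - ⟪P, v φ⟫_ℝ) (2 * Real.pi) := by
    intro x
    simp only [supp_per, inner_v_per]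
  obtain ⟨ψ, hψ, hψ2⟩ := hper.exists_mem_Ico₀ Real.two_pi_pos φ
  unfold len L
  apply intervalIntegral.integral_lt_integral_of_continuousOn_of_le_of_exists_lt Real.two_pi_pos
    (supp_cont hC hne).continuousOn (max_cont hC hne _).continuousOn
  · intro x _
    exact le_max_left _ _
  · refine ⟨ψ, Ico_subset_Icc_self hψ, ?_⟩
    apply lt_max_of_lt_right
    linarith

lemma L_per (P : E) (a : ℝ) :
    L C P = ∫ φ in a..(a + 2 * Real.pi), max (supp C φ) ⟪P, v φ⟫_ℝ := by
  have hper : Function.Periodic (fun φ => max (supp C φ) ⟪P, v φ⟫_ℝ) (2 * Real.pi) := by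
    intro x
    simp only [supp_per, inner_v_per]
  have := hper.intervalIntegral_add_eq 0 a
  rw [zero_add] at this
  exact this

end

/-- integral of the support function over the far half circle -/
noncomputable def cc (C : Set E) (φ : ℝ) : ℝ :=
  ∫ s in (φ + Real.pi / 2)..(φ + 3 * Real.pi / 2), supp C s

lemma integral_v_half (P : E) (φ : ℝ) :
    ∫ s in (φ - Real.pi / 2)..(φ + Real.pi / 2), ⟪P, v s⟫_ℝ = 2 * ⟪P, v φ⟫_ℝ := by
  simp only [ip, v0, v1]
  rw [intervalIntegral.integral_add
    ((by fun_prop : Continuous fun x => P 0 * Real.cos x).intervalIntegrable _ _)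
    ((by fun_prop : Continuous fun x => P 1 * Real.sin x).intervalIntegrable _ _),
    intervalIntegral.integral_const_mul, intervalIntegral.integral_const_mul, integral_cos,
    integral_sin]
  rw [Real.sin_add, Real.sin_sub, Real.cos_add, Real.cos_sub]
  simp
  ring

section

variable {C : Set E} (hC : IsCompact C) (hne : C.Nonempty)

include hC hne

lemma L_split (P : E) (φ : ℝ) : L C P =
    (∫ s in (φ - Real.pi / 2)..(φ + Real.pi / 2), max (supp C s) ⟪P, v s⟫_ℝ) +
    ∫ s in (φ + Real.pi / 2)..(φ + 3 * Real.pi / 2), max (supp C s) ⟪P, v s⟫_ℝ := by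
  rw [L_per hC hne P (φ - Real.pi / 2), intervalIntegral.integral_add_adjacent_intervals
    ((max_cont hC hne P).intervalIntegrable _ _) ((max_cont hC hne P).intervalIntegrable _ _)]
  congr 1
  ring

lemma L_lower (P : E) (φ : ℝ) : 2 * ⟪P, v φ⟫_ℝ + cc C φ ≤ L C P := by
  rw [L_split hC hne P φ, ← integral_v_half]
  unfold cc
  have hπ := Real.pi_pos
  apply add_le_add
  · apply intervalIntegral.integral_mono_on (by linarith)
      ((inner_v_cont P).intervalIntegrable _ _) ((max_cont hC hne P).intervalIntegrable _ _)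
    intro s _
    exact le_max_right _ _
  · apply intervalIntegral.integral_mono_on (by linarith)
      ((supp_cont hC hne).intervalIntegrable _ _) ((max_cont hC hne P).intervalIntegrable _ _)
    intro s _
    exact le_max_left _ _

end

/-- region enclosed by the string construction -/
def Sub (C : Set E) (ℓ : ℝ) : Set E := {x | L C x ≤ ℓ}

section

variable {C : Set E} (hC : IsCompact C) (hconv : Convex ℝ C) (hne : C.Nonempty)

include hC hne

lemma Sub_closed (ℓ : ℝ) : IsClosed (Sub C ℓ) := isClosed_le (L_cont hC hne) continuous_const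

lemma Sub_convex (ℓ : ℝ) : Convex ℝ (Sub C ℓ) := by
  intro x hx y hy a b ha hb hab
  have h1 := L_convex hC hne (P := x) (Q := y) ha hb hab
  have hx' : L C x ≤ ℓ := hx
  have hy' : L C y ≤ ℓ := hy
  change L C (a • x + b • y) ≤ ℓ
  have : a * L C x + b * L C y ≤ a * ℓ + b * ℓ := by gcongr
  have h2 : a * ℓ + b * ℓ = ℓ := by rw [← add_mul, hab, one_mul]
  linarith

lemma Sub_compact (ℓ : ℝ) : IsCompact (Sub C ℓ) := by
  apply Metric.isCompact_of_isClosed_isBounded (Sub_closed hC hne ℓ)
  obtain ⟨M, hM⟩ := hC.isBounded.exists_norm_le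
  rw [isBounded_iff_forall_norm_le]
  refine ⟨(ℓ + Real.pi * M) / 2, fun x hx => ?_⟩
  have hx' : L C x ≤ ℓ := hx
  obtain ⟨φ, -, hφ⟩ := exists_angle x
  have h1 := L_lower hC hne x φ
  have h2 : ⟪x, v φ⟫_ℝ = ‖x‖ := by
    conv_lhs => rw [hφ]
    rw [inner_smul_left, real_inner_self_eq_norm_sq, norm_v]
    simp
  have h3 : -(Real.pi * M) ≤ cc C φ := by
    unfold cc
    have hπ := Real.pi_pos
    have e : ∫ _s in (φ + Real.pi / 2)..(φ + 3 * Real.pi / 2), (-M) = -(Real.pi * M) := by
      rw [intervalIntegral.integral_const, smul_eq_mul]; ring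
    rw [← e]
    apply intervalIntegral.integral_mono_on (by linarith)
      (continuous_const.intervalIntegrable _ _) ((supp_cont hC hne).intervalIntegrable _ _)
    intro s _
    obtain ⟨y, hy⟩ := hne
    have h4 := le_supp hC hy s
    have h5 := abs_real_inner_le_norm y (v s)
    rw [norm_v, mul_one] at h5
    have h6 := hM y hy
    have h7 := neg_abs_le ⟪y, v s⟫_ℝ
    linarith
  rw [h2] at h1
  linarith

lemma sub_Sub {ℓ : ℝ} (hℓ : len C ≤ ℓ) : C ⊆ Sub C ℓ := fun x hx => by
  change L C x ≤ ℓ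
  rw [L_of_mem hC hne hx]; exact hℓ

lemma Sub_nonempty {ℓ : ℝ} (hℓ : len C ≤ ℓ) : (Sub C ℓ).Nonempty := hne.mono (sub_Sub hC hne hℓ)

/-- a maximiser of a linear functional on `Sub C ℓ` lies on the level set -/
lemma max_level {ℓ φ : ℝ} {P : E} (hP : P ∈ Sub C ℓ) (hmax : ⟪P, v φ⟫_ℝ = supp (Sub C ℓ) φ) :
    L C P = ℓ := by
  by_contra hcon
  have hlt : L C P < ℓ := lt_of_le_of_ne hP hcon
  have hc : Continuous fun t : ℝ => L C (P + t • v φ) := (L_cont hC hne).comp (by fun_prop)
  have h1 : ∀ᶠ t in 𝓝 (0 : ℝ), L C (P + t • v φ) < ℓ := by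
    apply hc.continuousAt.eventually_lt_const
    simpa using hlt
  have h2 : ∀ᶠ t in 𝓝[>] (0 : ℝ), L C (P + t • v φ) < ℓ := h1.filter_mono nhdsWithin_le_nhds
  obtain ⟨t, ht, ht0⟩ := (h2.and self_mem_nhdsWithin).exists
  have ht0 : (0 : ℝ) < t := ht0
  have h3 : P + t • v φ ∈ Sub C ℓ := ht.le
  have h4 := le_supp (Sub_compact hC hne ℓ) h3 φ
  rw [inner_add_left, inner_smul_left, real_inner_self_eq_norm_sq, norm_v, hmax] at h4
  simp at h4
  linarith

end

end Pool.Agent.H900.Str
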