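import Pool.Agent.H900.Str.Fin

set_option autoImplicit false

open Set Filter Topology Metric MeasureTheory
open scoped InnerProductSpace Pointwise ENNReal

namespace Pool.Agent.H900.Str

theorem ellipse_of_Tr {K : Set E} (hK : IsCompact K) (hconv : Convex ℝ K)
    (hint : (interior K).Nonempty) (htr : Tr K) :
    ∃ f : E ≃ᵃ[ℝ] E, K = f '' closedBall 0 1 := by
  obtain ⟨x₀, hx₀⟩ := hint
  obtain ⟨r, hr, hball⟩ := Metric.nhds_basis_closedBall.mem_iff.1 (mem_interior_iff_mem_nhds.1 hx₀)
  have hne : K.Nonempty := ⟨x₀, interior_subset hx₀⟩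
  -- first translation
  set K1 : Set E := (fun x => x + (-x₀)) '' K with hK1
  have tr_conv : ∀ (D : Set E) (c : E), Convex ℝ D → Convex ℝ ((fun x => x + c) '' D) := by
    intro D c hD
    have : (fun x => x + c) '' D = (fun z => z + (-c)) ⁻¹' D := by
      ext z
      constructor
      · rintro ⟨x, hx, rfl⟩
        simpa using hx
      · intro hz
        exact ⟨z + (-c), hz, by simp⟩
    rw [this]
    exact hD.translate_preimage_left (-c)
  have hK1c : IsCompact K1 := hK.image (by fun_prop)
  have hK1conv : Convex ℝ K1 := tr_conv _ _ hconv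
  have hK1ball : closedBall (0 : E) r ⊆ K1 := by
    intro z hz
    refine ⟨z + x₀, hball ?_, by simp⟩
    rw [mem_closedBall, dist_eq_norm, add_sub_cancel_right]
    simpa using hz
  have hK1tr : Tr K1 := Tr_translate hK hne _ htr
  have hK1ne := ne_of_ball hr hK1ball
  obtain ⟨x₁, hx₁⟩ := exists_center hK1c hK1conv hr hK1ball hK1tr
  -- second translation
  set K2 : Set E := (fun x => x + (-x₁)) '' K1 with hK2
  have hK2c : IsCompact K2 := hK1c.image (by fun_prop)
  have hK2conv : Convex ℝ K2 := tr_conv _ _ hK1conv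
  have hK2ne : K2.Nonempty := hK1ne.image _
  have hK2tr : Tr K2 := Tr_translate hK1c hK1ne _ hK1tr
  have hs2 : ∀ φ, supp K2 φ = (supp K1 φ + supp K1 (φ + Real.pi)) / 2 := by
    intro φ
    rw [hK2, supp_translate _ hK1c hK1ne, inner_neg_left, ← hx₁]
    ring
  have hsym : ∀ φ, supp K2 (φ + Real.pi) = supp K2 φ := by
    intro φ
    rw [hs2, hs2]
    have e : φ + Real.pi + Real.pi = φ + 2 * Real.pi := by ring
    rw [e, supp_per]
    ring
  have hge : ∀ φ, r ≤ supp K2 φ := by
    intro φ
    rw [hs2]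
    have h1 := supp_ge hK1c hr hK1ball φ
    have h2 := supp_ge hK1c hr hK1ball (φ + Real.pi)
    linarith
  have hK2ball : closedBall (0 : E) r ⊆ K2 := by
    intro z hz
    rw [mem_closedBall, dist_zero_right] at hz
    apply mem_of_supp hK2c hK2conv hK2ne
    intro φ
    have := real_inner_le_norm z (v φ)
    rw [norm_v, mul_one] at this
    linarith [hge φ]
  obtain ⟨q11, q12, q22, hq⟩ := quad hK2c hK2conv hr hK2ball hK2tr hsym
  obtain ⟨T, hT⟩ := ellipse_of_supp hK2c hK2conv hK2ne (fun φ => hr.trans_le (hge φ)) hq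
  refine ⟨T.toAffineEquiv.trans (AffineEquiv.constVAdd ℝ E (x₀ + x₁)), ?_⟩
  have h1 : K = (fun x => x + (x₀ + x₁)) '' K2 := by
    rw [hK2, hK1, image_image, image_image]
    have : (fun x : E => x + -x₀ + -x₁ + (x₀ + x₁)) = id := by
      ext x : 1
      simp only [id]
      abel
    rw [this, image_id]
  rw [h1, hT, image_image]
  apply image_congr
  intro x _
  simp only [AffineEquiv.trans_apply, LinearEquiv.coe_toAffineEquiv, AffineEquiv.constVAdd_apply,
    vadd_eq_add]
  abel

end Pool.Agent.H900.Str
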