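import Pool.Agent.H900.Str.Base

set_option autoImplicit false

open Set Filter Topology Metric MeasureTheory
open scoped InnerProductSpace Pointwise ENNReal

namespace Pool.Agent.H900.Str

/-- nearest-point projection -/
theorem exists_proj {K : Set E} (hc : Convex ℝ K) (hK : IsCompact K) (hne : K.Nonempty) :
    ∃ p : E → E, LipschitzWith 1 p ∧
      ∀ u v : E, v ∈ K → (∀ w ∈ K, inner ℝ (u - v) (w - v) ≤ 0) → p u = v := by
  have h1 := exists_norm_eq_iInf_of_complete_convex hne hK.isComplete hc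
  choose p hp1 hp2 using h1
  have hp3 : ∀ u, ∀ w ∈ K, inner ℝ (u - p u) (w - p u) ≤ 0 := fun u =>
    (norm_eq_iInf_iff_real_inner_le_zero hc (hp1 u)).mp (hp2 u)
  refine ⟨p, ?_, ?_⟩
  · apply LipschitzWith.of_dist_le_mul
    intro x y
    rw [NNReal.coe_one, one_mul, dist_eq_norm, dist_eq_norm]
    have a1 := hp3 x (p y) (hp1 y)
    have a2 := hp3 y (p x) (hp1 x)
    have a3 : ‖p x - p y‖ ^ 2 ≤ inner ℝ (x - y) (p x - p y) := by
      rw [← real_inner_self_eq_norm_sq]
      simp only [inner_sub_left, inner_sub_right] at a1 a2 ⊢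
      rw [real_inner_comm (p x) (p y)] at *
      linarith
    have a4 : inner ℝ (x - y) (p x - p y) ≤ ‖x - y‖ * ‖p x - p y‖ := real_inner_le_norm _ _
    rcases eq_or_lt_of_le (norm_nonneg (p x - p y)) with h | h
    · rw [← h]; exact norm_nonneg _
    · nlinarith
  · intro u v hv h
    have a1 := hp3 u v hv
    have a2 := h (p u) (hp1 u)
    have a3 : ‖p u - v‖ ^ 2 ≤ 0 := by
      rw [← real_inner_self_eq_norm_sq]
      simp only [inner_sub_left, inner_sub_right] at a1 a2 ⊢
      rw [real_inner_comm (p u) v] at *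
      linarith
    have a4 : ‖p u - v‖ = 0 := by
      have := norm_nonneg (p u - v)
      nlinarith
    exact sub_eq_zero.mp (norm_eq_zero.mp a4)

/-- supporting direction at a boundary point -/
theorem exists_support {K : Set E} (hc : Convex ℝ K) (hi : (interior K).Nonempty) {x : E}
    (hx : x ∈ frontier K) : ∃ ν : E, ν ≠ 0 ∧ ∀ w ∈ K, inner ℝ ν (w - x) ≤ 0 := by
  obtain ⟨f, hf⟩ := geometric_hahn_banach_open_point (x := x) hc.interior isOpen_interior hx.2
  set ν := (InnerProductSpace.toDual ℝ E).symm f with hν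
  have hfν : ∀ w, f w = inner ℝ ν w := fun w => by
    rw [hν, InnerProductSpace.toDual_symm_apply]
  obtain ⟨y, hy⟩ := hi
  refine ⟨ν, ?_, ?_⟩
  · intro h0
    have := hf y hy
    rw [hfν, hfν, h0, inner_zero_left, inner_zero_left] at this
    exact lt_irrefl _ this
  · intro w hw
    rw [inner_sub_right, sub_nonpos, ← hfν, ← hfν]
    have hcl : w ∈ closure (interior K) := by
      rw [hc.closure_interior_eq_closure_of_nonempty_interior ⟨y, hy⟩]
      exact subset_closure hw
    have : closure (interior K) ⊆ {w | f w ≤ f x} :=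
      closure_minimal (fun w hw => (hf w hw).le) (isClosed_le f.continuous continuous_const)
    exact this hcl

/-- last point of a ray in a compact set is a boundary point -/
theorem exists_last {K : Set E} (hK : IsCompact K) {x ν : E} (hx : x ∈ K) (hν : ν ≠ 0) :
    ∃ t : ℝ, 0 ≤ t ∧ x + t • ν ∈ frontier K := by
  set S : Set ℝ := {t | 0 ≤ t ∧ x + t • ν ∈ K} with hS
  have hcont : Continuous (fun t : ℝ => x + t • ν) := by fun_prop
  have hSc : IsClosed S :=
    (isClosed_le continuous_const continuous_id).inter (hK.isClosed.preimage hcont)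
  have hν' : 0 < ‖ν‖ := norm_pos_iff.mpr hν
  have hSb : Bornology.IsBounded S := by
    obtain ⟨B, hB⟩ := hK.isBounded.exists_norm_le
    rw [isBounded_iff_forall_norm_le]
    refine ⟨(B + ‖x‖) / ‖ν‖, fun t ht => ?_⟩
    rw [le_div_iff₀ hν']
    have h1 := hB _ ht.2
    have h2 : ‖t‖ * ‖ν‖ = ‖t • ν‖ := (norm_smul t ν).symm
    rw [h2]
    have h3 := norm_sub_le (x + t • ν) x
    rw [add_sub_cancel_left] at h3
    linarith
  have hScomp : IsCompact S := Metric.isCompact_of_isClosed_isBounded hSc hSb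
  have hSne : S.Nonempty := ⟨0, le_refl _, by simpa using hx⟩
  obtain ⟨t, ht, htmax⟩ := hScomp.exists_isGreatest hSne
  refine ⟨t, ht.1, subset_closure ht.2, ?_⟩
  intro hint
  have h1 : ∀ᶠ s in nhds t, x + s • ν ∈ K := by
    have := hcont.continuousAt.preimage_mem_nhds (mem_interior_iff_mem_nhds.mp hint)
    exact this
  have h2 : ∀ᶠ s in nhdsWithin t (Ioi t), x + s • ν ∈ K := h1.filter_mono nhdsWithin_le_nhds
  obtain ⟨s, hs1, hs2⟩ := (h2.and self_mem_nhdsWithin).exists
  have h3 : t < s := hs2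
  have h4 : s ∈ S := ⟨ht.1.trans h3.le, hs1⟩
  have h5 : s ≤ t := htmax h4
  exact absurd h3 (not_lt.mpr h5)

/-- **Monotonicity of the perimeter.** -/
theorem perim_mono {K K' : Set E} (hc : Convex ℝ K) (hK : IsCompact K) (hi : (interior K).Nonempty)
    (hK' : IsCompact K') (h : K ⊆ K') : (μH[1] : Measure E) (frontier K) ≤ μH[1] (frontier K') := by
  have hne : K.Nonempty := hi.mono interior_subset
  obtain ⟨p, hp1, hp2⟩ := exists_proj hc hK hne
  have hsub : frontier K ⊆ p '' frontier K' := by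
    intro x hx
    have hxK : x ∈ K := hK.isClosed.frontier_subset hx
    obtain ⟨ν, hν, hν2⟩ := exists_support hc hi hx
    obtain ⟨t, ht, ht2⟩ := exists_last hK' (h hxK) hν
    refine ⟨x + t • ν, ht2, ?_⟩
    apply hp2 _ _ hxK
    intro w hw
    rw [add_sub_cancel_left, inner_smul_left]
    exact mul_nonpos_of_nonneg_of_nonpos (by simpa using ht) (hν2 w hw)
  calc (μH[1] : Measure E) (frontier K) ≤ μH[1] (p '' frontier K') := measure_mono hsub
    _ ≤ ((1 : NNReal) : ℝ≥0∞) ^ (1:ℝ) * μH[1] (frontier K') :=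
      hp1.hausdorffMeasure_image_le zero_le_one _
    _ = μH[1] (frontier K') := by simp

theorem perim_smul {K : Set E} {t : ℝ} (ht : 0 < t) :
    (μH[1] : Measure E) (frontier (t • K)) = ENNReal.ofReal t * μH[1] (frontier K) := by
  have h1 : frontier (t • K) = t • frontier K := by
    have : (t • K) = (Homeomorph.smulOfNeZero t ht.ne') '' K := rfl
    rw [this, ← Homeomorph.image_frontier]
    rfl
  rw [h1, Measure.hausdorffMeasure_smul₀ zero_le_one ht.ne', NNReal.rpow_one]
  rw [ENNReal.smul_def, smul_eq_mul]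
  congr 1
  rw [ENNReal.ofReal, Real.nnnorm_of_nonneg ht.le]
  congr 1
  ext
  simp [ht.le]

theorem perim_translate {K : Set E} (c : E) :
    (μH[1] : Measure E) (frontier ((fun x => x + c) '' K)) = μH[1] (frontier K) := by
  have h1 : frontier ((fun x => x + c) '' K) = (fun x => x + c) '' frontier K := by
    have : ((fun x => x + c) '' K) = (Homeomorph.addRight c) '' K := rfl
    rw [this, ← Homeomorph.image_frontier]
    rfl
  rw [h1]
  have h2 : Isometry (fun x : E => x + c) := fun x y => by simp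
  exact h2.hausdorffMeasure_image (Or.inl zero_le_one) _

/-! ### The wedge lemma -/

/-- the intersection point of the supporting lines with normals `v a` and `v (a + γ)` -/
noncomputable def corner (C : Set E) (a γ : ℝ) : E :=
  supp C a • v a + ((supp C (a + γ) - supp C a * Real.cos γ) / Real.sin γ) • w a

lemma inner_w_v (a b : ℝ) : ⟪w a, v b⟫_ℝ = Real.sin (b - a) := iwv a b

lemma corner_a (C : Set E) (a γ : ℝ) : ⟪corner C a γ, v a⟫_ℝ = supp C a := by
  unfold corner
  rw [inner_add_left, inner_smul_left, inner_smul_left, ivv, iwv]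
  simp

lemma corner_b (C : Set E) (a : ℝ) {γ : ℝ} (hγ : Real.sin γ ≠ 0) :
    ⟪corner C a γ, v (a + γ)⟫_ℝ = supp C (a + γ) := by
  unfold corner
  rw [inner_add_left, inner_smul_left, inner_smul_left, ivv, iwv]
  simp only [conj_trivial]
  have h1 : a - (a + γ) = -γ := by ring
  have h2 : a + γ - a = γ := by ring
  rw [h1, h2, Real.cos_neg]
  field_simp
  ring

lemma wedge {C : Set E} (hC : IsCompact C) (hne : C.Nonempty) {a γ : ℝ} (h0 : 0 < γ)
    (hπ : γ < Real.pi) {X : E} (hXa : ⟪X, v a⟫_ℝ = supp C a)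
    (hXb : ⟪X, v (a + γ)⟫_ℝ = supp C (a + γ)) :
    (∀ s, 0 ≤ Real.sin s → ⟪X, v (a + γ + s)⟫_ℝ ≤ supp C (a + γ + s)) ∧
    (∀ s, Real.sin s ≤ 0 → ⟪X, v (a + s)⟫_ℝ ≤ supp C (a + s)) ∧
    (∀ s, 0 ≤ s → s ≤ γ → supp C (a + s) ≤ ⟪X, v (a + s)⟫_ℝ) := by
  have hsin : 0 < Real.sin γ := Real.sin_pos_of_pos_of_lt_pi h0 hπ
  obtain ⟨y, hy, hy2⟩ := supp_attained hC hne a
  obtain ⟨z, hz, hz2⟩ := supp_attained hC hne (a + γ)
  refine ⟨?_, ?_, ?_⟩
  · intro s hs
    have h1 := le_supp hC hz (a + γ + s)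
    have h2 := le_supp hC hz a
    rw [inner_v_shift, hXb]
    rw [inner_v_shift z, hz2] at h1
    -- compare the `w` components
    have e1 : ⟪X, v a⟫_ℝ = ⟪X, v (a + γ)⟫_ℝ * Real.cos γ - ⟪X, w (a + γ)⟫_ℝ * Real.sin γ := by
      have := inner_v_shift X (a + γ) (-γ)
      rw [Real.cos_neg, Real.sin_neg] at this
      have h3 : a + γ + -γ = a := by ring
      rw [h3] at this
      linarith
    have e2 : ⟪z, v a⟫_ℝ = ⟪z, v (a + γ)⟫_ℝ * Real.cos γ - ⟪z, w (a + γ)⟫_ℝ * Real.sin γ := by
      have := inner_v_shift z (a + γ) (-γ)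
      rw [Real.cos_neg, Real.sin_neg] at this
      have h3 : a + γ + -γ = a := by ring
      rw [h3] at this
      linarith
    have h4 : ⟪X, w (a + γ)⟫_ℝ ≤ ⟪z, w (a + γ)⟫_ℝ := by
      rw [hXa, hXb] at e1
      rw [hz2] at e2
      have : ⟪X, w (a + γ)⟫_ℝ * Real.sin γ ≤ ⟪z, w (a + γ)⟫_ℝ * Real.sin γ := by linarith
      exact le_of_mul_le_mul_right this hsin
    nlinarith
  · intro s hs
    have h1 := le_supp hC hy (a + s)
    have h2 := le_supp hC hy (a + γ)
    rw [inner_v_shift, hXa]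
    rw [inner_v_shift y, hy2] at h1 h2
    have e1 := inner_v_shift X a γ
    rw [hXa, hXb] at e1
    have h4 : ⟪y, w a⟫_ℝ ≤ ⟪X, w a⟫_ℝ := by
      have : ⟪y, w a⟫_ℝ * Real.sin γ ≤ ⟪X, w a⟫_ℝ * Real.sin γ := by linarith
      exact le_of_mul_le_mul_right this hsin
    nlinarith
  · intro s hs0 hsγ
    apply supp_le hC hne
    intro x hx
    have h1 := le_supp hC hx a
    have h2 := le_supp hC hx (a + γ)
    rw [← hXa] at h1
    rw [← hXb] at h2
    -- `sin γ v(a+s) = sin(γ-s) v(a) + sin s v(a+γ)`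
    have key : ∀ Z : E, Real.sin γ * ⟪Z, v (a + s)⟫_ℝ =
        Real.sin (γ - s) * ⟪Z, v a⟫_ℝ + Real.sin s * ⟪Z, v (a + γ)⟫_ℝ := by
      intro Z
      rw [inner_v_shift, inner_v_shift Z a γ, Real.sin_sub]
      ring
    have k1 := key x
    have k2 := key X
    have s1 : 0 ≤ Real.sin (γ - s) :=
      Real.sin_nonneg_of_nonneg_of_le_pi (by linarith) (by linarith)
    have s2 : 0 ≤ Real.sin s := Real.sin_nonneg_of_nonneg_of_le_pi hs0 (by linarith)
    have : Real.sin γ * ⟪x, v (a + s)⟫_ℝ ≤ Real.sin γ * ⟪X, v (a + s)⟫_ℝ := by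
      rw [k1, k2]
      gcongr
    exact le_of_mul_le_mul_left this hsin

end Pool.Agent.H900.Str
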