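import Pool.Agent.H900.Str.Mono

set_option autoImplicit false

open Set Filter Topology Metric MeasureTheory
open scoped InnerProductSpace Pointwise ENNReal

namespace Pool.Agent.H900.Str

lemma mem_seg {p w : E} {a b t : ℝ} (h1 : a ≤ t) (h2 : t ≤ b) :
    p + t • w ∈ segment ℝ (p + a • w) (p + b • w) := by
  rw [segment_eq_image']
  rcases eq_or_lt_of_le (h1.trans h2) with h | h
  · refine ⟨0, ⟨le_refl _, zero_le_one⟩, ?_⟩
    have : t = a := by linarith
    simp [this]
  · refine ⟨(t - a) / (b - a), ⟨div_nonneg (by linarith) (by linarith), ?_⟩, ?_⟩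
    · rw [div_le_one (by linarith)]; linarith
    · have hne : b - a ≠ 0 := by linarith
      have e1 : p + b • w - (p + a • w) = (b - a) • w := by module
      simp only [e1]
      rw [smul_smul, div_mul_cancel₀ _ hne]
      module

/-- circumscribed polygon with normals `v (i δ)` -/
def PN (C : Set E) (δ : ℝ) : Set E := {x | ∀ i : ℤ, ⟪x, v (i * δ)⟫_ℝ ≤ supp C (i * δ)}

lemma PN_closed (C : Set E) (δ : ℝ) : IsClosed (PN C δ) := by
  have : PN C δ = ⋂ i : ℤ, {x : E | ⟪x, v (i * δ)⟫_ℝ ≤ supp C (i * δ)} := by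
    ext x; simp [PN]
  rw [this]
  exact isClosed_iInter fun i => isClosed_le (by fun_prop) continuous_const

lemma PN_convex (C : Set E) (δ : ℝ) : Convex ℝ (PN C δ) := by
  intro x hx y hy a b ha hb hab i
  rw [inner_add_left, inner_smul_left, inner_smul_left]
  simp only [conj_trivial]
  have h1 := hx i
  have h2 := hy i
  have h3 : supp C (i * δ) = a * supp C (i * δ) + b * supp C (i * δ) := by rw [← add_mul, hab, one_mul]
  rw [h3]
  gcongr

lemma sub_PN {C : Set E} (hC : IsCompact C) (δ : ℝ) : C ⊆ PN C δ := fun _ hx _ => le_supp hC hx _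

section

variable {C : Set E} (hC : IsCompact C) (hconv : Convex ℝ C) {r M δ : ℝ} (hr : 0 < r)
  (hball : closedBall (0 : E) r ⊆ C) (hM : ∀ x ∈ C, ‖x‖ ≤ M) (hδ : 0 < δ) (hδ2 : δ ≤ 1 / 2)

include hC hr hball in
lemma supp_ge (φ : ℝ) : r ≤ supp C φ := by
  have h1 : r • v φ ∈ C := hball (by simp [norm_smul, norm_v, abs_of_pos hr])
  have h2 := le_supp hC h1 φ
  rw [inner_smul_left, real_inner_self_eq_norm_sq, norm_v] at h2
  simpa using h2

include hC hr hball hM hδ hδ2 in
lemma PN_bound {x : E} (hx : x ∈ PN C δ) : ‖x‖ ≤ 3 * M ∧ ∀ φ, ⟪x, v φ⟫_ℝ ≤ supp C φ + 4 * M * δ := by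
  have hne : C.Nonempty := ⟨0, hball (by simp [hr.le])⟩
  have hM0 : 0 ≤ M := by
    have := hM 0 (hball (by simp [hr.le]))
    simpa using this
  have key : ∀ φ, ⟪x, v φ⟫_ℝ ≤ supp C φ + M * δ + ‖x‖ * δ := by
    intro φ
    set i : ℤ := ⌊φ / δ⌋ with hi
    have h1 : |φ - i * δ| ≤ δ := by
      have a1 : (i : ℝ) ≤ φ / δ := Int.floor_le _
      have a2 : φ / δ < i + 1 := Int.lt_floor_add_one _
      rw [le_div_iff₀ hδ] at a1
      rw [div_lt_iff₀ hδ] at a2
      rw [abs_le]; constructor <;> linarith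
    have h2 := hx i
    have h3 : |supp C (i * δ) - supp C φ| ≤ M * |i * δ - φ| := supp_lip hC hne hM _ _
    have h4 : ⟪x, v φ - v (i * δ)⟫_ℝ ≤ ‖x‖ * ‖v φ - v (i * δ)‖ := real_inner_le_norm _ _
    have h5 := v_lip φ (i * δ)
    rw [inner_sub_right] at h4
    rw [abs_sub_comm (i * δ) φ] at h3
    have h6 : ‖x‖ * ‖v φ - v (i * δ)‖ ≤ ‖x‖ * δ := by gcongr; linarith
    have h7 : M * |φ - i * δ| ≤ M * δ := by gcongr
    have h8 := (abs_le.1 h3).2
    linarith
  have hx3 : ‖x‖ ≤ 3 * M := by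
    obtain ⟨φ, -, hφ⟩ := exists_angle x
    have h1 := key φ
    have h2 : ⟪x, v φ⟫_ℝ = ‖x‖ := by
      conv_lhs => rw [hφ]
      rw [inner_smul_left, real_inner_self_eq_norm_sq, norm_v]
      simp
    have h3 : supp C φ ≤ M := by
      apply supp_le hC hne
      intro y hy
      have := real_inner_le_norm y (v φ)
      rw [norm_v, mul_one] at this
      exact this.trans (hM y hy)
    rw [h2] at h1
    have hn := norm_nonneg x
    nlinarith
  refine ⟨hx3, fun φ => ?_⟩
  have := key φ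
  nlinarith

include hC hr hball hM hδ hδ2 in
lemma PN_compact : IsCompact (PN C δ) := by
  apply Metric.isCompact_of_isClosed_isBounded (PN_closed C δ)
  rw [isBounded_iff_forall_norm_le]
  exact ⟨3 * M, fun x hx => (PN_bound hC hr hball hM hδ hδ2 hx).1⟩

include hC hconv hr hball hM hδ hδ2 in
lemma PN_sub : PN C δ ⊆ (1 + 4 * M * δ / r) • C := by
  have hne : C.Nonempty := ⟨0, hball (by simp [hr.le])⟩
  have hM0 : 0 ≤ M := by
    have := hM 0 (hball (by simp [hr.le]))
    simpa using this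
  intro x hx
  have hpos : 0 < 1 + 4 * M * δ / r := by positivity
  rw [mem_smul_set_iff_inv_smul_mem₀ hpos.ne']
  apply mem_of_supp hC hconv hne
  intro φ
  rw [inner_smul_left]
  simp only [conj_trivial]
  rw [inv_mul_le_iff₀ hpos]
  have h1 := (PN_bound hC hr hball hM hδ hδ2 hx).2 φ
  have h2 := supp_ge hC hr hball φ
  have h3 : 4 * M * δ ≤ 4 * M * δ / r * supp C φ := by
    rw [div_mul_eq_mul_div, le_div_iff₀ hr]
    gcongr
  linarith

end

section

variable {C : Set E} (hC : IsCompact C) {N : ℕ} (hN : 5 ≤ N) {δ : ℝ} (hδ : δ = 2 * Real.pi / N)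

include hN hδ in
lemma delta_pos : 0 < δ := by
  rw [hδ]
  have : (0 : ℝ) < N := by exact_mod_cast (by omega : 0 < N)
  have := Real.pi_pos
  positivity

include hN hδ in
lemma Ndelta : (N : ℝ) * δ = 2 * Real.pi := by
  rw [hδ]
  have : (N : ℝ) ≠ 0 := by exact_mod_cast (by omega : N ≠ 0)
  field_simp

include hN hδ in
lemma delta_lt : δ < Real.pi / 2 := by
  have h1 := Ndelta hN hδ
  have h2 : (5 : ℝ) ≤ N := by exact_mod_cast hN
  have h3 := delta_pos hN hδ
  have := Real.pi_pos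
  nlinarith

include hN hδ in
lemma sin_delta_pos : 0 < Real.sin δ :=
  Real.sin_pos_of_pos_of_lt_pi (delta_pos hN hδ) (by
    have := delta_lt hN hδ
    have := Real.pi_pos
    linarith)

include hN hδ in
lemma v_red (i : ℤ) : v (i * δ) = v (((i % N : ℤ) : ℝ) * δ) := by
  have h1 : i = i % N + N * (i / N) := (Int.emod_add_mul_ediv i N).symm
  have h2 : (i : ℝ) * δ = ((i % N : ℤ) : ℝ) * δ + ((i / N : ℤ) : ℝ) * (2 * Real.pi) := by
    rw [← Ndelta hN hδ]
    have : (i : ℝ) = ((i % N : ℤ) : ℝ) + (N : ℝ) * ((i / N : ℤ) : ℝ) := by exact_mod_cast h1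
    rw [this]; ring
  rw [h2]
  have hper : Function.Periodic v (2 * Real.pi) := v_per
  exact hper.int_mul (i / N) _

include hN hδ in
lemma sin_case (k : ℤ) : Real.sin (k * δ) ≤ 0 ∨ 0 ≤ Real.sin (((k : ℝ) - 1) * δ) := by
  have h1 : k = k % N + N * (k / N) := (Int.emod_add_mul_ediv k N).symm
  have hN0 : (0 : ℤ) < N := by exact_mod_cast (by omega : 0 < N)
  have hr0 : 0 ≤ k % N := Int.emod_nonneg _ hN0.ne'
  have hrN : k % N < N := Int.emod_lt_of_pos _ hN0
  set r : ℤ := k % N with hr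
  set q : ℤ := k / N with hq
  have hk : (k : ℝ) = r + N * q := by exact_mod_cast h1
  have e1 : (k : ℝ) * δ = r * δ + q * (2 * Real.pi) := by rw [hk, ← Ndelta hN hδ]; ring
  have e2 : ((k : ℝ) - 1) * δ = (r - 1) * δ + q * (2 * Real.pi) := by
    rw [hk, ← Ndelta hN hδ]; ring
  rw [e1, e2, Real.sin_add_int_mul_two_pi, Real.sin_add_int_mul_two_pi]
  have hδp := delta_pos hN hδ
  have hNd := Ndelta hN hδ
  rcases eq_or_lt_of_le hr0 with h | h
  · left
    rw [← h]; simp
  · have hr1 : (1 : ℝ) ≤ r := by exact_mod_cast h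
    have hrN' : (r : ℝ) ≤ N := by exact_mod_cast hrN.le
    rcases le_total ((r : ℝ) * δ) Real.pi with h2 | h2
    · right
      apply Real.sin_nonneg_of_nonneg_of_le_pi
      · exact mul_nonneg (by linarith) hδp.le
      · nlinarith
    · left
      have h3 : Real.sin ((r : ℝ) * δ) = Real.sin (r * δ - 2 * Real.pi) := by
        rw [Real.sin_sub_two_pi]
      rw [h3]
      apply Real.sin_nonpos_of_nonpos_of_neg_pi_le
      · nlinarith
      · linarith

include hC hN hδ in
lemma corner_mem (hne : C.Nonempty) (i : ℤ) : corner C (i * δ) δ ∈ PN C δ := by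
  have hs := sin_delta_pos hN hδ
  have hδπ : δ < Real.pi := by
    have := delta_lt hN hδ
    have := Real.pi_pos
    linarith
  obtain ⟨h1, h2, -⟩ := wedge hC hne (delta_pos hN hδ) hδπ (corner_a C (i * δ) δ)
    (corner_b C (i * δ) hs.ne')
  intro j
  rcases sin_case hN hδ (j - i) with h | h
  · have := h2 _ h
    have e : (i : ℝ) * δ + ((j - i : ℤ) : ℝ) * δ = j * δ := by push_cast; ring
    rwa [e] at this
  · have := h1 _ h
    have e : (i : ℝ) * δ + δ + (((j - i : ℤ) : ℝ) - 1) * δ = j * δ := by push_cast; ring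
    rwa [e] at this

/-- the `w`-coordinate of the next vertex -/
noncomputable def tp (C : Set E) (δ : ℝ) (i : ℤ) : ℝ :=
  (supp C ((i + 1 : ℤ) * δ) - supp C (i * δ) * Real.cos δ) / Real.sin δ
/-- the `w`-coordinate of the previous vertex -/
noncomputable def tm (C : Set E) (δ : ℝ) (i : ℤ) : ℝ :=
  (supp C (i * δ) * Real.cos δ - supp C ((i - 1 : ℤ) * δ)) / Real.sin δ

lemma corner_tp (C : Set E) (δ : ℝ) (i : ℤ) :
    corner C (i * δ) δ = supp C (i * δ) • v (i * δ) + tp C δ i • w (i * δ) := by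
  unfold corner tp
  have e : (i : ℝ) * δ + δ = ((i + 1 : ℤ) : ℝ) * δ := by push_cast; ring
  rw [e]

include hN hδ in
lemma corner_tm (C : Set E) (i : ℤ) :
    corner C ((i - 1 : ℤ) * δ) δ = supp C (i * δ) • v (i * δ) + tm C δ i • w (i * δ) := by
  have hs := sin_delta_pos hN hδ
  have e : ((i - 1 : ℤ) : ℝ) * δ + δ = (i : ℝ) * δ := by push_cast; ring
  have h1 := corner_b C ((i - 1 : ℤ) * δ) (γ := δ) hs.ne'
  rw [e] at h1
  have h2 := corner_a C ((i - 1 : ℤ) * δ) δ
  rw [frame (corner C ((i - 1 : ℤ) * δ) δ) (i * δ), h1]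
  congr 2
  have h3 := inner_v_shift (corner C ((i - 1 : ℤ) * δ) δ) (i * δ) (-δ)
  have e2 : (i : ℝ) * δ + -δ = ((i - 1 : ℤ) : ℝ) * δ := by push_cast; ring
  rw [e2, h2, h1, Real.cos_neg, Real.sin_neg] at h3
  unfold tm
  rw [eq_div_iff hs.ne']
  linarith

include hC hN hδ in
/-- a point of the polygon on line `i` is on edge `i` -/
lemma edge_of_line {x : E} (hx : x ∈ PN C δ) (i : ℤ) (hi : ⟪x, v (i * δ)⟫_ℝ = supp C (i * δ)) :
    x ∈ segment ℝ (corner C ((i - 1 : ℤ) * δ) δ) (corner C (i * δ) δ) := by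
  have hs := sin_delta_pos hN hδ
  rw [corner_tm hN hδ, corner_tp C δ i]
  have hfr := frame x (i * δ)
  rw [hi] at hfr
  rw [hfr]
  apply mem_seg
  · have h1 := hx (i - 1)
    have h3 := inner_v_shift x (i * δ) (-δ)
    have e2 : (i : ℝ) * δ + -δ = ((i - 1 : ℤ) : ℝ) * δ := by push_cast; ring
    rw [e2, hi, Real.cos_neg, Real.sin_neg] at h3
    unfold tm
    rw [div_le_iff₀ hs]
    linarith
  · have h1 := hx (i + 1)
    have h3 := inner_v_shift x (i * δ) δ
    have e2 : (i : ℝ) * δ + δ = ((i + 1 : ℤ) : ℝ) * δ := by push_cast; ring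
    rw [e2, hi] at h3
    unfold tp
    rw [le_div_iff₀ hs]
    linarith

include hC hN hδ in
lemma tm_le_tp (hne : C.Nonempty) (i : ℤ) : tm C δ i ≤ tp C δ i := by
  have hs := sin_delta_pos hN hδ
  have h1 := corner_mem hC hN hδ hne i (i - 1)
  rw [corner_tp] at h1
  rw [inner_add_left, inner_smul_left, inner_smul_left, ivv, iwv] at h1
  simp only [conj_trivial] at h1
  have e1 : (i : ℝ) * δ - ((i - 1 : ℤ) : ℝ) * δ = δ := by push_cast; ring
  have e2 : ((i - 1 : ℤ) : ℝ) * δ - (i : ℝ) * δ = -δ := by push_cast; ring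
  rw [e1, e2, Real.sin_neg] at h1
  unfold tm
  rw [div_le_iff₀ hs]
  linarith

include hC hN hδ in
lemma frontier_sub :
    frontier (PN C δ) ⊆ ⋃ i ∈ Finset.range N,
      segment ℝ (corner C (((i : ℤ) - 1 : ℤ) * δ) δ) (corner C ((i : ℤ) * δ) δ) := by
  intro x hx
  have hxP : x ∈ PN C δ := (PN_closed C δ).frontier_subset hx
  have hN0 : (0 : ℤ) < N := by exact_mod_cast (by omega : 0 < N)
  obtain ⟨i, hi, hi2⟩ : ∃ i ∈ Finset.range N, ⟪x, v ((i : ℤ) * δ)⟫_ℝ = supp C ((i : ℤ) * δ) := by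
    by_contra hcon
    push Not at hcon
    apply hx.2
    rw [mem_interior_iff_mem_nhds]
    have h1 : ∀ i ∈ Finset.range N, ∀ᶠ y in 𝓝 x, ⟪y, v ((i : ℤ) * δ)⟫_ℝ < supp C ((i : ℤ) * δ) := by
      intro i hi
      have hlt := lt_of_le_of_ne (hxP i) (hcon i hi)
      have hc : Continuous fun y : E => ⟪y, v ((i : ℤ) * δ)⟫_ℝ := by fun_prop
      exact hc.continuousAt.eventually_lt_const hlt
    have h2 := (Finset.eventually_all (Finset.range N)).2 h1
    filter_upwards [h2] with y hy j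
    have hj0 : 0 ≤ j % N := Int.emod_nonneg _ hN0.ne'
    have hjN : j % N < N := Int.emod_lt_of_pos _ hN0
    obtain ⟨m, hm⟩ := Int.eq_ofNat_of_zero_le hj0
    have h3 := hy m (Finset.mem_range.2 (by omega))
    have h4 := v_red hN hδ j
    have h5 : supp C (j * δ) = supp C (((j % N : ℤ) : ℝ) * δ) := by unfold supp; rw [h4]
    rw [h4, h5, hm]
    exact h3.le
  rw [mem_iUnion₂]
  exact ⟨i, hi, edge_of_line hC hN hδ hxP i hi2⟩

include hC hN hδ in
lemma edge_sub_line (i : ℤ) {x : E}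
    (hx : x ∈ segment ℝ (corner C ((i - 1 : ℤ) * δ) δ) (corner C (i * δ) δ)) :
    ⟪x, v (i * δ)⟫_ℝ = supp C (i * δ) := by
  have hs := sin_delta_pos hN hδ
  rw [segment_eq_image'] at hx
  obtain ⟨t, -, rfl⟩ := hx
  simp only
  rw [corner_tm hN hδ, corner_tp C δ i]
  simp only [inner_add_left, inner_smul_left, inner_sub_left, ivv, iwv, sub_self, Real.cos_zero,
    Real.sin_zero, conj_trivial]
  ring

include hC hN hδ in
lemma edge_sub_frontier (hne : C.Nonempty) (i : ℤ) :
    segment ℝ (corner C ((i - 1 : ℤ) * δ) δ) (corner C (i * δ) δ) ⊆ frontier (PN C δ) := by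
  intro x hx
  have hxP : x ∈ PN C δ := (PN_convex C δ).segment_subset (corner_mem hC hN hδ hne _)
    (corner_mem hC hN hδ hne _) hx
  have hline := edge_sub_line hC hN hδ i hx
  refine ⟨subset_closure hxP, fun hint => ?_⟩
  have h1 : Tendsto (fun t : ℝ => x + t • v (i * δ)) (𝓝[>] 0) (𝓝 x) := by
    have hc : Continuous (fun t : ℝ => x + t • v (i * δ)) := by fun_prop
    have := hc.tendsto 0
    simp only [zero_smul, add_zero] at this
    exact this.mono_left nhdsWithin_le_nhds
  have h2 := h1.eventually (mem_interior_iff_mem_nhds.1 hint)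
  obtain ⟨t, ht, ht0⟩ := (h2.and self_mem_nhdsWithin).exists
  have ht0 : (0 : ℝ) < t := ht0
  have h3 := ht i
  rw [inner_add_left, inner_smul_left, real_inner_self_eq_norm_sq, norm_v, hline] at h3
  simp at h3
  linarith

include hC hN hδ in
lemma perim_PN (hpos : ∀ φ, 0 < supp C φ) (hne : C.Nonempty) :
    (μH[1] : Measure E) (frontier (PN C δ)) =
      ENNReal.ofReal (2 * (1 - Real.cos δ) / Real.sin δ * ∑ i ∈ Finset.range N, supp C (i * δ)) := by
  have hs := sin_delta_pos hN hδ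
  have hset : frontier (PN C δ) = ⋃ i ∈ Finset.range N,
      segment ℝ (corner C (((i : ℤ) - 1 : ℤ) * δ) δ) (corner C ((i : ℤ) * δ) δ) := by
    apply Subset.antisymm (frontier_sub hC hN hδ)
    exact iUnion₂_subset fun i _ => edge_sub_frontier hC hN hδ hne i
  have hnull : ∀ i ∈ Finset.range N, ∀ j ∈ Finset.range N, i ≠ j →
      AEDisjoint (μH[1] : Measure E)
        (segment ℝ (corner C (((i : ℤ) - 1 : ℤ) * δ) δ) (corner C ((i : ℤ) * δ) δ))
        (segment ℝ (corner C (((j : ℤ) - 1 : ℤ) * δ) δ) (corner C ((j : ℤ) * δ) δ)) := by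
    intro i hi j hj hij
    have hna : NullSingletonClass (μH[1] : Measure E) :=
      Measure.nullSingletonClass_hausdorff E one_pos
    unfold AEDisjoint
    apply Set.Subsingleton.measure_zero
    intro x hx y hy
    have a1 := edge_sub_line hC hN hδ i hx.1
    have a2 := edge_sub_line hC hN hδ j hx.2
    have b1 := edge_sub_line hC hN hδ i hy.1
    have b2 := edge_sub_line hC hN hδ j hy.2
    set s : ℝ := ((j : ℤ) : ℝ) * δ - ((i : ℤ) : ℝ) * δ with hsdef
    have hjs : ((j : ℤ) : ℝ) * δ = ((i : ℤ) : ℝ) * δ + s := by rw [hsdef]; ring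
    -- `sin s ≠ 0`
    have hsin : Real.sin s ≠ 0 := by
      intro h0
      rw [Real.sin_eq_zero_iff] at h0
      obtain ⟨n, hn⟩ := h0
      have hNd := Ndelta hN hδ
      have hs2 : s = ((j : ℝ) - i) * δ := by rw [hsdef]; push_cast; ring
      have hi' : (i : ℝ) < N := by exact_mod_cast Finset.mem_range.1 hi
      have hj' : (j : ℝ) < N := by exact_mod_cast Finset.mem_range.1 hj
      have hi0 : (0 : ℝ) ≤ i := by positivity
      have hj0 : (0 : ℝ) ≤ j := by positivity
      have hδp := delta_pos hN hδ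
      have hπ := Real.pi_pos
      have hlt : s < 2 * Real.pi := by rw [hs2, ← hNd]; nlinarith
      have hgt : -(2 * Real.pi) < s := by rw [hs2, ← hNd]; nlinarith
      have hn1 : (n : ℝ) < 2 := by nlinarith
      have hn2 : (-2 : ℝ) < n := by nlinarith
      have hn1' : n < 2 := by exact_mod_cast hn1
      have hn2' : -2 < n := by exact_mod_cast hn2
      have hcase : n = -1 ∨ n = 0 ∨ n = 1 := by omega
      have hopp : ∀ z : E, ⟪z, v (((i : ℤ) : ℝ) * δ + s)⟫_ℝ =
          ⟪z, v (((i : ℤ) : ℝ) * δ)⟫_ℝ * Real.cos s + ⟪z, w (((i : ℤ) : ℝ) * δ)⟫_ℝ * Real.sin s :=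
        fun z => inner_v_shift z _ s
      rcases hcase with rfl | rfl | rfl
      · have hc : Real.cos s = -1 := by
          rw [← hn]; push_cast; rw [neg_one_mul, Real.cos_neg, Real.cos_pi]
        have hsn : Real.sin s = 0 := by
          rw [← hn]; push_cast; rw [neg_one_mul, Real.sin_neg, Real.sin_pi, neg_zero]
        have h1 := hopp x
        rw [← hjs, a2, a1, hc, hsn] at h1
        have p1 := hpos (((j : ℤ) : ℝ) * δ)
        have p2 := hpos (((i : ℤ) : ℝ) * δ)
        linarith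
      · rw [Int.cast_zero, zero_mul, hs2] at hn
        have hzero : (j : ℝ) - i = 0 := by
          rcases mul_eq_zero.1 hn.symm with h | h
          · exact h
          · exact absurd h hδp.ne'
        apply hij
        have : (i : ℝ) = j := by linarith
        exact_mod_cast this
      · have hc : Real.cos s = -1 := by
          rw [← hn]; push_cast; rw [one_mul, Real.cos_pi]
        have hsn : Real.sin s = 0 := by
          rw [← hn]; push_cast; rw [one_mul, Real.sin_pi]
        have h1 := hopp x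
        rw [← hjs, a2, a1, hc, hsn] at h1
        have p1 := hpos (((j : ℤ) : ℝ) * δ)
        have p2 := hpos (((i : ℤ) : ℝ) * δ)
        linarith
    rw [hjs] at a2 b2
    rw [inner_v_shift, a1] at a2
    rw [inner_v_shift, b1] at b2
    have hw : ⟪x, w (((i : ℤ) : ℝ) * δ)⟫_ℝ = ⟪y, w (((i : ℤ) : ℝ) * δ)⟫_ℝ := by
      have : ⟪x, w (((i : ℤ) : ℝ) * δ)⟫_ℝ * Real.sin s =
        ⟪y, w (((i : ℤ) : ℝ) * δ)⟫_ℝ * Real.sin s := by linarith
      exact mul_right_cancel₀ hsin this
    rw [frame x (((i : ℤ) : ℝ) * δ), frame y (((i : ℤ) : ℝ) * δ), a1, b1, hw]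
  have hmeas : ∀ i ∈ Finset.range N, NullMeasurableSet
      (segment ℝ (corner C (((i : ℤ) - 1 : ℤ) * δ) δ) (corner C ((i : ℤ) * δ) δ))
      (μH[1] : Measure E) := by
    intro i _
    apply MeasurableSet.nullMeasurableSet
    apply IsClosed.measurableSet
    apply IsCompact.isClosed
    rw [segment_eq_image']
    exact isCompact_Icc.image (by fun_prop)
  rw [hset, measure_biUnion_finset₀ (fun i hi j hj hij => hnull i hi j hj hij) hmeas]
  have hlen : ∀ i ∈ Finset.range N, (μH[1] : Measure E)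
      (segment ℝ (corner C (((i : ℤ) - 1 : ℤ) * δ) δ) (corner C ((i : ℤ) * δ) δ)) =
      ENNReal.ofReal (tp C δ i - tm C δ i) := by
    intro i _
    rw [hausdorffMeasure_segment, edist_comm, edist_dist, dist_eq_norm, corner_tm hN hδ,
      corner_tp C δ i]
    congr 1
    have e : supp C ((i : ℤ) * δ) • v ((i : ℤ) * δ) + tp C δ i • w ((i : ℤ) * δ) -
        (supp C ((i : ℤ) * δ) • v ((i : ℤ) * δ) + tm C δ i • w ((i : ℤ) * δ)) =
        (tp C δ i - tm C δ i) • w ((i : ℤ) * δ) := by module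
    rw [e, norm_smul]
    have hw : ‖w ((i : ℤ) * δ)‖ = 1 := by
      have h : ‖w ((i : ℤ) * δ)‖ ^ 2 = 1 := by rw [nsq]; simp
      have h2 : 0 ≤ ‖w ((i : ℤ) * δ)‖ := norm_nonneg _
      nlinarith
    rw [hw, mul_one, Real.norm_of_nonneg (sub_nonneg.2 (tm_le_tp hC hN hδ hne i))]
  rw [Finset.sum_congr rfl hlen, ← ENNReal.ofReal_sum_of_nonneg]
  · congr 1
    have hper : ∀ a : ℝ, supp C (a + N * δ) = supp C a := by
      intro a; rw [Ndelta hN hδ, supp_per]
    have e1 : ∀ i ∈ Finset.range N, tp C δ i - tm C δ i =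
        (supp C (((i + 1 : ℕ) : ℝ) * δ) + supp C (((i : ℝ) - 1) * δ) -
          2 * Real.cos δ * supp C (i * δ)) / Real.sin δ := by
      intro i _
      unfold tp tm
      push_cast
      ring
    rw [Finset.sum_congr rfl e1, ← Finset.sum_div, Finset.sum_sub_distrib, Finset.sum_add_distrib,
      ← Finset.mul_sum]
    have s1 : ∑ i ∈ Finset.range N, supp C (((i + 1 : ℕ) : ℝ) * δ) =
        ∑ i ∈ Finset.range N, supp C ((i : ℝ) * δ) := by
      have h1 := Finset.sum_range_succ (fun i : ℕ => supp C ((i : ℝ) * δ)) N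
      have h2 := Finset.sum_range_succ' (fun i : ℕ => supp C ((i : ℝ) * δ)) N
      have h3 : supp C ((N : ℝ) * δ) = supp C (((0 : ℕ) : ℝ) * δ) := by
        have := hper 0
        simpa using this
      rw [h1] at h2
      linarith
    have s2 : ∑ i ∈ Finset.range N, supp C (((i : ℝ) - 1) * δ) =
        ∑ i ∈ Finset.range N, supp C ((i : ℝ) * δ) := by
      have h1 := Finset.sum_range_succ (fun i : ℕ => supp C (((i : ℝ) - 1) * δ)) N
      have h2 := Finset.sum_range_succ' (fun i : ℕ => supp C (((i : ℝ) - 1) * δ)) N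
      have h3 : supp C (((N : ℝ) - 1) * δ) = supp C ((((0 : ℕ) : ℝ) - 1) * δ) := by
        have := hper (-δ)
        have e : (((N : ℝ) - 1) * δ) = -δ + N * δ := by ring
        have e' : (((0 : ℕ) : ℝ) - 1) * δ = -δ := by push_cast; ring
        rw [e, e', this]
      rw [h1, h3] at h2
      have h4 : ∑ i ∈ Finset.range N, supp C ((((i + 1 : ℕ) : ℝ) - 1) * δ) =
          ∑ i ∈ Finset.range N, supp C ((i : ℝ) * δ) := by
        refine Finset.sum_congr rfl fun i _ => ?_
        congr 1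
        push_cast
        ring
      rw [h4] at h2
      linarith
    rw [s1, s2]
    ring
  · intro i _
    exact sub_nonneg.2 (tm_le_tp hC hN hδ hne i)

end

end Pool.Agent.H900.Str
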