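import Pool.Agent.H900.Str.Asym

set_option autoImplicit false

open Set Filter Topology Metric MeasureTheory
open scoped InnerProductSpace Pointwise ENNReal

namespace Pool.Agent.H900.Str

/-- transitivity at the level of the length functions -/
def Tr (K : Set E) : Prop :=
  ∀ ℓ1, len K < ℓ1 → ∀ ℓ2, len (Sub K ℓ1) < ℓ2 → ∃ ℓ3, ∀ y : E, L (Sub K ℓ1) y = ℓ2 ↔ L K y = ℓ3

section translate

variable {K : Set E} (hK : IsCompact K) (hne : K.Nonempty) (c : E)

include hK hne

lemma L_translate (P : E) : L ((fun x => x + c) '' K) P = L K (P - c) := by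
  unfold L
  have h1 : ∀ φ, max (supp ((fun x => x + c) '' K) φ) ⟪P, v φ⟫_ℝ =
      max (supp K φ) ⟪P - c, v φ⟫_ℝ + ⟪c, v φ⟫_ℝ := by
    intro φ
    rw [supp_translate c hK hne, inner_sub_left, ← max_add_add_right]
    congr 1
    ring
  simp only [h1]
  rw [intervalIntegral.integral_add ((max_cont hK hne _).intervalIntegrable _ _)
    ((inner_v_cont c).intervalIntegrable _ _), integral_inner_v, add_zero]

lemma len_translate : len ((fun x => x + c) '' K) = len K := by
  unfold len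
  simp only [supp_translate c hK hne]
  rw [intervalIntegral.integral_add ((supp_cont hK hne).intervalIntegrable _ _)
    ((inner_v_cont c).intervalIntegrable _ _), integral_inner_v, add_zero]

lemma Sub_translate (ℓ : ℝ) : Sub ((fun x => x + c) '' K) ℓ = (fun x => x + c) '' Sub K ℓ := by
  ext y
  constructor
  · intro hy
    refine ⟨y - c, ?_, by simp⟩
    change L K (y - c) ≤ ℓ
    rw [← L_translate hK hne c]
    exact hy
  · rintro ⟨x, hx, rfl⟩
    change L _ _ ≤ ℓ
    rw [L_translate hK hne c, add_sub_cancel_right]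
    exact hx

lemma Tr_translate (h : Tr K) : Tr ((fun x => x + c) '' K) := by
  intro ℓ1 h1 ℓ2 h2
  rw [len_translate hK hne] at h1
  have hc := Sub_compact hK hne ℓ1
  have hn := Sub_nonempty hK hne h1.le
  rw [Sub_translate hK hne, len_translate hc hn] at h2
  obtain ⟨ℓ3, h3⟩ := h ℓ1 h1 ℓ2 h2
  refine ⟨ℓ3, fun y => ?_⟩
  rw [Sub_translate hK hne, L_translate hc hn, L_translate hK hne]
  exact h3 _

end translate

lemma hasDerivAt_window {f : ℝ → ℝ} (hf : Continuous f) (a b φ : ℝ) :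
    HasDerivAt (fun φ => ∫ s in (φ + a)..(φ + b), f s) (f (φ + b) - f (φ + a)) φ := by
  have h1 : ∀ c, HasDerivAt (fun φ => ∫ s in (0:ℝ)..(φ + c), f s) (f (φ + c)) φ := by
    intro c
    have := intervalIntegral.integral_hasDerivAt_right (hf.intervalIntegrable 0 (φ + c))
      (hf.stronglyMeasurableAtFilter _ _) hf.continuousAt
    exact this.comp_add_const φ c
  have h2 := (h1 b).sub (h1 a)
  have h3 : (fun φ => ∫ s in (φ + a)..(φ + b), f s) =
      (fun φ => ∫ s in (0:ℝ)..(φ + b), f s) - fun φ => ∫ s in (0:ℝ)..(φ + a), f s := by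
    ext ψ
    simp only [Pi.sub_apply]
    rw [intervalIntegral.integral_interval_sub_left (hf.intervalIntegrable _ _)
      (hf.intervalIntegrable _ _)]
  rw [h3]
  exact h2

section

variable {K : Set E} (hK : IsCompact K) (hconv : Convex ℝ K) {r : ℝ} (hr : 0 < r)
  (hball : closedBall (0 : E) r ⊆ K)

include hK hr hball

lemma EE_anti (φ : ℝ) {R R' : ℝ} (hRR : R ≤ R') : EE K φ R' ≤ EE K φ R := by
  have hne := ne_of_ball hr hball
  unfold EE
  have hπ := Real.pi_pos
  have hcont := supp_cont hK hne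
  apply intervalIntegral.integral_mono_on (by linarith)
  · exact (by fun_prop : Continuous fun s => max (supp K s - R' * Real.cos (s - φ)) 0).intervalIntegrable _ _
  · exact (by fun_prop : Continuous fun s => max (supp K s - R * Real.cos (s - φ)) 0).intervalIntegrable _ _
  · intro s hs
    have : 0 ≤ Real.cos (s - φ) := Real.cos_nonneg_of_mem_Icc ⟨by linarith [hs.1], by linarith [hs.2]⟩
    apply max_le_max _ le_rfl
    nlinarith

lemma ball_Sub {ℓ : ℝ} (hℓ : len K ≤ ℓ) : closedBall (0 : E) r ⊆ Sub K ℓ :=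
  hball.trans (sub_Sub hK (ne_of_ball hr hball) hℓ)

/-- the support function of `Sub K ℓ` is asymptotically `(ℓ - cc K φ) / 2` -/
lemma supp_Sub_bounds {ℓ : ℝ} (hℓ : len K ≤ ℓ) (φ : ℝ) :
    2 * supp (Sub K ℓ) φ ≤ ℓ - cc K φ ∧
    ℓ - cc K φ - EE K φ ((ℓ - cc K φ - EE K φ 0) / 2) ≤ 2 * supp (Sub K ℓ) φ := by
  have hne := ne_of_ball hr hball
  have hc := Sub_compact hK hne ℓ
  have hn := Sub_nonempty hK hne hℓ
  constructor
  · obtain ⟨P, hP, hP2⟩ := supp_attained hc hn φ
    rw [← hP2]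
    have h1 := L_lower hK hne P φ
    have h2 : L K P ≤ ℓ := hP
    linarith
  · obtain ⟨R, hR, hR2⟩ := ray_surj hK hr hball φ hℓ
    have h1 : R • v φ ∈ Sub K ℓ := le_of_eq hR2
    have h2 := le_supp hc h1 φ
    rw [inner_smul_left, real_inner_self_eq_norm_sq, norm_v] at h2
    simp only [conj_trivial, one_pow, mul_one] at h2
    rw [L_ray hK hr hball hR] at hR2
    have h3 := EE_anti hK hr hball φ hR
    have h4 : (ℓ - cc K φ - EE K φ 0) / 2 ≤ R := by linarith
    have h5 := EE_anti hK hr hball φ h4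
    linarith

include hconv

lemma htr_of_Tr (htr : Tr K) {ℓ : ℝ} (hℓ : len K < ℓ) (P Q : E) (hP : P ∉ Sub K ℓ)
    (hPQ : L K P = L K Q) : L (Sub K ℓ) P = L (Sub K ℓ) Q := by
  have hne := ne_of_ball hr hball
  have hc := Sub_compact hK hne ℓ
  have hn := Sub_nonempty hK hne hℓ.le
  have h1 := len_lt_L hc hn (Sub_convex hK hne ℓ) hP
  obtain ⟨ℓ3, h3⟩ := htr ℓ hℓ _ h1
  have h4 := (h3 P).1 rfl
  rw [hPQ] at h4
  exact ((h3 Q).2 h4).symm

lemma F1 (htr : Tr K) {ℓ : ℝ} (hℓ : len K < ℓ) (φ : ℝ) :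
    supp (Sub K ℓ) (φ + Real.pi) - supp K (φ + Real.pi) = supp (Sub K ℓ) φ - supp K φ := by
  have hne := ne_of_ball hr hball
  have hc := Sub_compact hK hne ℓ
  have hn := Sub_nonempty hK hne hℓ.le
  have hcont := supp_cont hK hne
  have hcont' := supp_cont hc hn
  have hb := ball_Sub hK hr hball hℓ.le
  have key := infinity hK hc hr hr hball hb (fun P Q hP _ h => htr_of_Tr hK hconv hr hball htr hℓ P Q hP h)
  have h0 : ∀ ψ, cc (Sub K ℓ) ψ - cc K ψ = cc (Sub K ℓ) 0 - cc K 0 := fun ψ => (key ψ 0).1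
  have h1 := (hasDerivAt_window hcont' (Real.pi / 2) (3 * Real.pi / 2) (φ - Real.pi / 2)).sub
    (hasDerivAt_window hcont (Real.pi / 2) (3 * Real.pi / 2) (φ - Real.pi / 2))
  have h2 : HasDerivAt (fun _ : ℝ => cc (Sub K ℓ) 0 - cc K 0) 0 (φ - Real.pi / 2) :=
    hasDerivAt_const _ _
  have h3 : ((fun φ => ∫ s in (φ + Real.pi / 2)..(φ + 3 * Real.pi / 2), supp (Sub K ℓ) s) -
      fun φ => ∫ s in (φ + Real.pi / 2)..(φ + 3 * Real.pi / 2), supp K s) =
      fun _ : ℝ => cc (Sub K ℓ) 0 - cc K 0 := by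
    ext ψ
    exact h0 ψ
  rw [h3] at h1
  have h4 := h1.unique h2
  have e1 : φ - Real.pi / 2 + 3 * Real.pi / 2 = φ + Real.pi := by ring
  have e2 : φ - Real.pi / 2 + Real.pi / 2 = φ := by ring
  rw [e1, e2] at h4
  linarith

lemma F2 (htr : Tr K) {ℓ : ℝ} (hℓ : len K < ℓ) : ∃ c : ℝ, ∀ φ,
    (supp (Sub K ℓ) φ ^ 2 + supp (Sub K ℓ) (φ + Real.pi) ^ 2) -
    (supp K φ ^ 2 + supp K (φ + Real.pi) ^ 2) = c := by
  have hne := ne_of_ball hr hball
  have hc := Sub_compact hK hne ℓ
  have hb := ball_Sub hK hr hball hℓ.le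
  have key := infinity hK hc hr hr hball hb (fun P Q hP _ h => htr_of_Tr hK hconv hr hball htr hℓ P Q hP h)
  refine ⟨supp (Sub K ℓ) (0 + Real.pi / 2) ^ 2 + supp (Sub K ℓ) (0 - Real.pi / 2) ^ 2 -
          (supp K (0 + Real.pi / 2) ^ 2 + supp K (0 - Real.pi / 2) ^ 2), fun φ => ?_⟩
  have := (key (φ + Real.pi / 2) 0).2
  have e1 : φ + Real.pi / 2 + Real.pi / 2 = φ + Real.pi := by ring
  have e2 : φ + Real.pi / 2 - Real.pi / 2 = φ := by ring
  rw [e1, e2] at this
  rw [← this]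
  ring

lemma F3 (htr : Tr K) (φ : ℝ) :
    2 * (supp K φ - supp K (φ + Real.pi)) = cc K (φ + Real.pi) - cc K φ := by
  set X := 2 * (supp K φ - supp K (φ + Real.pi)) - (cc K (φ + Real.pi) - cc K φ) with hX
  have key : ∀ ℓ, len K < ℓ → |X| ≤ EE K φ ((ℓ - cc K φ - EE K φ 0) / 2) +
      EE K (φ + Real.pi) ((ℓ - cc K (φ + Real.pi) - EE K (φ + Real.pi) 0) / 2) := by
    intro ℓ hℓ
    obtain ⟨a1, a2⟩ := supp_Sub_bounds hK hr hball hℓ.le φ
    obtain ⟨b1, b2⟩ := supp_Sub_bounds hK hr hball hℓ.le (φ + Real.pi)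
    have h1 := F1 hK hconv hr hball htr hℓ φ
    have h2 := EE_nonneg K φ ((ℓ - cc K φ - EE K φ 0) / 2)
    have h3 := EE_nonneg K (φ + Real.pi)
      ((ℓ - cc K (φ + Real.pi) - EE K (φ + Real.pi) 0) / 2)
    rw [abs_le]
    constructor <;> linarith
  have hlim : ∀ ψ, Tendsto (fun ℓ => EE K ψ ((ℓ - cc K ψ - EE K ψ 0) / 2)) atTop (𝓝 0) := by
    intro ψ
    refine (EE_tendsto_zero hK hr hball ψ).comp ?_
    apply Tendsto.atTop_div_const two_pos
    have : (fun ℓ => ℓ - cc K ψ - EE K ψ 0) = fun ℓ => ℓ + (- cc K ψ - EE K ψ 0) := by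
      ext ℓ; ring
    rw [this]
    exact tendsto_atTop_add_const_right _ _ tendsto_id
  have hl := (hlim φ).add (hlim (φ + Real.pi))
  rw [add_zero] at hl
  have h0 : |X| ≤ 0 := by
    apply ge_of_tendsto hl
    filter_upwards [eventually_gt_atTop (len K)] with ℓ hℓ
    exact key ℓ hℓ
  have := abs_nonpos_iff.1 h0
  linarith

/-- The odd part of the support function is linear. -/
lemma exists_center (htr : Tr K) : ∃ x₁ : E, ∀ φ,
    (supp K φ - supp K (φ + Real.pi)) / 2 = ⟪x₁, v φ⟫_ℝ := by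
  have hne := ne_of_ball hr hball
  have hcont := supp_cont hK hne
  set o : ℝ → ℝ := fun φ => (supp K φ - supp K (φ + Real.pi)) / 2 with ho
  have ho1 : ∀ φ, o (φ + Real.pi) = - o φ := by
    intro φ
    simp only [ho]
    have e : φ + Real.pi + Real.pi = φ + 2 * Real.pi := by ring
    rw [e, supp_per]
    ring
  have hd : ∀ φ, HasDerivAt o (o (φ + Real.pi / 2)) φ := by
    intro φ
    have h1 := (hasDerivAt_window hcont (Real.pi / 2) (3 * Real.pi / 2) (φ + Real.pi)).comp_add_const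
      φ Real.pi
    have h2 := hasDerivAt_window hcont (Real.pi / 2) (3 * Real.pi / 2) φ
    have h3 := (h1.sub h2).div_const 4
    have e0 : o = fun φ => (cc K (φ + Real.pi) - cc K φ) / 4 := by
      ext ψ
      have := F3 hK hconv hr hball htr ψ
      simp only [ho]
      linarith
    rw [e0]
    refine h3.congr_deriv ?_
    have e1 : φ + Real.pi + 3 * Real.pi / 2 = φ + Real.pi / 2 + 2 * Real.pi := by ring
    have e2 : φ + Real.pi + Real.pi / 2 = φ + Real.pi / 2 + Real.pi := by ring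
    have e3 : φ + 3 * Real.pi / 2 = φ + Real.pi / 2 + Real.pi := by ring
    have e4 := congrFun e0 (φ + Real.pi / 2)
    rw [← e0, e1, e2, e3, supp_per]
    simp only [ho]
    ring
  have hd2 : ∀ φ, HasDerivAt (fun φ => o (φ + Real.pi / 2)) (- o φ) φ := by
    intro φ
    have h1 := (hd (φ + Real.pi / 2)).comp_add_const φ (Real.pi / 2)
    have e1 : φ + Real.pi / 2 + Real.pi / 2 = φ + Real.pi := by ring
    rw [e1, ho1] at h1
    exact h1
  -- two constants
  have hU : ∀ φ, o φ * Real.cos φ - o (φ + Real.pi / 2) * Real.sin φ = o 0 := by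
    intro φ
    have hdu : ∀ x, HasDerivAt (fun φ => o φ * Real.cos φ - o (φ + Real.pi / 2) * Real.sin φ) 0 x := by
      intro x
      have := ((hd x).mul (Real.hasDerivAt_cos x)).sub ((hd2 x).mul (Real.hasDerivAt_sin x))
      exact this.congr_deriv (by ring)
    have := is_const_of_deriv_eq_zero (fun x => (hdu x).differentiableAt) (fun x => (hdu x).deriv) φ 0
    simpa using this
  have hW : ∀ φ, o φ * Real.sin φ + o (φ + Real.pi / 2) * Real.cos φ = o (Real.pi / 2) := by
    intro φ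
    have hdu : ∀ x, HasDerivAt (fun φ => o φ * Real.sin φ + o (φ + Real.pi / 2) * Real.cos φ) 0 x := by
      intro x
      have := ((hd x).mul (Real.hasDerivAt_sin x)).add ((hd2 x).mul (Real.hasDerivAt_cos x))
      exact this.congr_deriv (by ring)
    have := is_const_of_deriv_eq_zero (fun x => (hdu x).differentiableAt) (fun x => (hdu x).deriv) φ 0
    simpa using this
  refine ⟨!₂[o 0, o (Real.pi / 2)], fun φ => ?_⟩
  rw [ip]
  have h1 := hU φ
  have h2 := hW φ
  have h3 := Real.sin_sq_add_cos_sq φ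
  change o φ = _
  have g0 : (!₂[o 0, o (Real.pi / 2)] : E) 0 = o 0 := rfl
  have g1 : (!₂[o 0, o (Real.pi / 2)] : E) 1 = o (Real.pi / 2) := rfl
  rw [g0, g1, v0, v1, ← h1, ← h2]
  linear_combination (- o φ) * h3

end

end Pool.Agent.H900.Str
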